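import Pool.Agent.X196.CS.Op3

/-!
# Left invariant means and averages over absolutely continuous measures
-/

set_option autoImplicit false
set_option linter.unusedSectionVars false

open Set Filter Topology MeasureTheory BoundedContinuousFunction

namespace Pool.Agent.J6H12.SG

open Pool.Agent.X196.CS

variable {H : Type*} [Group H] [TopologicalSpace H] [IsTopologicalGroup H] [LocallyCompactSpace H]
  [SecondCountableTopology H] [T2Space H] [MeasurableSpace H] [BorelSpace H]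

/-- `f` translated from the left: `(lt f a)(x) = f (a x)`. -/
noncomputable def lt (f : H →ᵇ ℝ) (a : H) : H →ᵇ ℝ :=
  f.compContinuous ⟨fun u => a * u, continuous_const_mul a⟩

theorem lt_apply (f : H →ᵇ ℝ) (a u : H) : lt f a u = f (a * u) := rfl

/-- `f` translated from the right -/
noncomputable def rt (f : H →ᵇ ℝ) (a : H) : H →ᵇ ℝ :=
  f.compContinuous ⟨fun u => u * a, continuous_mul_const a⟩

theorem rt_apply (f : H →ᵇ ℝ) (a u : H) : rt f a u = f (u * a) := rfl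

theorem rt_norm (f : H →ᵇ ℝ) (s : H) : ‖rt f s‖ ≤ ‖f‖ := by
  rw [norm_le (norm_nonneg _)]
  intro x
  exact f.norm_coe_le_norm _

theorem ll_cont (μ : Measure H) [IsFiniteMeasure μ] (f : H →ᵇ ℝ) :
    Continuous fun s => ∫ u, f (u * s) ∂μ := by
  apply continuous_of_dominated (bound := fun _ => ‖f‖)
  · intro s
    exact (f.continuous.comp (continuous_mul_const s)).aestronglyMeasurable
  · intro s
    exact Eventually.of_forall fun u => f.norm_coe_le_norm _
  · exact integrable_const _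
  · exact Eventually.of_forall fun u => f.continuous.comp (continuous_const_mul u)

theorem ll_bound (μ : Measure H) [IsFiniteMeasure μ] (f : H →ᵇ ℝ) (s : H) :
    ‖∫ u, f (u * s) ∂μ‖ ≤ μ.real univ * ‖f‖ := by
  have h1 := norm_integral_le_of_norm_le_const (μ := μ) (f := fun u => f (u * s)) (C := ‖f‖)
    (Eventually.of_forall fun u => f.norm_coe_le_norm _)
  rwa [mul_comm] at h1

/-- the average of the left translates -/
noncomputable def LL (μ : Measure H) [IsFiniteMeasure μ] (f : H →ᵇ ℝ) : H →ᵇ ℝ :=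
  BoundedContinuousFunction.ofNormedAddCommGroup
        (fun s => ∫ u, f (u * s) ∂μ) (ll_cont μ f) (μ.real univ * ‖f‖) (ll_bound μ f)

theorem LL_apply (μ : Measure H) [IsFiniteMeasure μ] (f : H →ᵇ ℝ) (s : H) :
    LL μ f s = ∫ u, f (u * s) ∂μ := rfl

theorem int_rt (μ : Measure H) [IsFiniteMeasure μ] (f : H →ᵇ ℝ) (s : H) :
    Integrable (fun u => f (u * s)) μ := (rt f s).integrable μ

theorem LL_sub (μ : Measure H) [IsFiniteMeasure μ] (f g : H →ᵇ ℝ) :
    LL μ (f - g) = LL μ f - LL μ g := by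
  ext s
  show ∫ u, (f (u * s) - g (u * s)) ∂μ = _
  rw [integral_sub (int_rt μ f s) (int_rt μ g s)]
  rfl

theorem LL_sum {ι : Type*} (μ : Measure H) [IsFiniteMeasure μ] (s : Finset ι) (f : ι → H →ᵇ ℝ) :
    LL μ (∑ i ∈ s, f i) = ∑ i ∈ s, LL μ (f i) := by
  classical
  induction s using Finset.induction_on with
  | empty =>
    ext x
    show ∫ u, (0 : ℝ) ∂μ = 0
    simp
  | insert a s ha ih =>
    rw [Finset.sum_insert ha, Finset.sum_insert ha, ← ih]
    ext x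
    show ∫ u, (f a (u * x) + (∑ i ∈ s, f i) (u * x)) ∂μ = _
    rw [integral_add (int_rt μ _ x) (int_rt μ _ x)]
    rfl

theorem LL_comp (κ μ : Measure H) [IsFiniteMeasure κ] [IsFiniteMeasure μ] (f : H →ᵇ ℝ) :
    LL κ (LL μ f) = LL (μ ∗ₘ κ) f := by
  ext x
  show ∫ u, (∫ v, f (v * (u * x)) ∂μ) ∂κ = ∫ w, f (w * x) ∂(μ ∗ₘ κ)
  rw [integral_mconv (int_rt _ f x), integral_integral_swap]
  · simp only [mul_assoc]
  · apply Integrable.of_bound (C := ‖f‖)
    · apply Continuous.aestronglyMeasurable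
      exact f.continuous.comp (by fun_prop)
    · exact Eventually.of_forall fun p => f.norm_coe_le_norm _

/-- A left invariant mean on the bounded continuous functions. -/
structure IsLIM (M : (H →ᵇ ℝ) →ₗ[ℝ] ℝ) : Prop where
  nonneg : ∀ f : H →ᵇ ℝ, (∀ x, 0 ≤ f x) → 0 ≤ M f
  one : M (const H 1) = 1
  inv : ∀ (f : H →ᵇ ℝ) (a : H), M (lt f a) = M f

theorem IsLIM.bound {M : (H →ᵇ ℝ) →ₗ[ℝ] ℝ} (hM : IsLIM M) (f : H →ᵇ ℝ) : ‖M f‖ ≤ 1 * ‖f‖ := by
  have h1 : M (‖f‖ • const H 1) = ‖f‖ := by rw [map_smul, hM.one, smul_eq_mul, mul_one]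
  have h2 := hM.nonneg (‖f‖ • const H 1 - f) (fun x => by
    have := f.norm_coe_le_norm x
    rw [Real.norm_eq_abs] at this
    have := (abs_le.mp this).2
    simp only [coe_sub, coe_smul, Pi.sub_apply, const_apply, smul_eq_mul, mul_one]
    linarith)
  have h3 := hM.nonneg (‖f‖ • const H 1 + f) (fun x => by
    have := f.norm_coe_le_norm x
    rw [Real.norm_eq_abs] at this
    have := (abs_le.mp this).1
    simp only [coe_add, coe_smul, Pi.add_apply, const_apply, smul_eq_mul, mul_one]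
    linarith)
  rw [map_sub, h1] at h2
  rw [map_add, h1] at h3
  rw [one_mul, Real.norm_eq_abs, abs_le]
  constructor <;> linarith

/-- the mean as a continuous functional -/
noncomputable def IsLIM.clm {M : (H →ᵇ ℝ) →ₗ[ℝ] ℝ} (hM : IsLIM M) : (H →ᵇ ℝ) →L[ℝ] ℝ :=
  M.mkContinuous 1 hM.bound

theorem IsLIM.clm_apply {M : (H →ᵇ ℝ) →ₗ[ℝ] ℝ} (hM : IsLIM M) (f : H →ᵇ ℝ) :
    hM.clm f = M f := rfl

/-- evaluation at a point -/
noncomputable def evl (x : H) : (H →ᵇ ℝ) →L[ℝ] ℝ :=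
  LinearMap.mkContinuous
    { toFun := fun f => f x
      map_add' := fun _ _ => rfl
      map_smul' := fun _ _ => rfl } 1 (fun f => by
        rw [one_mul]; exact f.norm_coe_le_norm x)

theorem evl_apply (x : H) (f : H →ᵇ ℝ) : evl x f = f x := rfl

theorem lt_norm (f : H →ᵇ ℝ) (s : H) : ‖lt f s‖ ≤ ‖f‖ := by
  rw [norm_le (norm_nonneg _)]
  intro x
  exact f.norm_coe_le_norm _

theorem IsLIM.avg {M : (H →ᵇ ℝ) →ₗ[ℝ] ℝ} (hM : IsLIM M) (κ : Measure H) [IsProbabilityMeasure κ]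
    {G : H →ᵇ ℝ} (hG : Continuous fun u => lt G u) : M (LL κ G) = M G := by
  have hi : Integrable (fun u => lt G u) κ :=
    Integrable.of_bound (C := ‖G‖) hG.aestronglyMeasurable
      (Eventually.of_forall fun u => lt_norm G u)
  have h1 : LL κ G = ∫ u, lt G u ∂κ := by
    ext x
    have h2 := (evl x).integral_comp_comm hi
    rw [evl_apply] at h2
    rw [← h2]
    rfl
  rw [h1, ← hM.clm_apply, ← hM.clm.integral_comp_comm hi]
  have h3 : (fun u => hM.clm (lt G u)) = fun _ => M G := by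
    funext u
    rw [hM.clm_apply, hM.inv]
  rw [h3]
  simp

variable (m : Measure H) [m.IsHaarMeasure]

theorem right_shift {μ : Measure H} [IsFiniteMeasure μ] (hμ : μ ≪ m) {ε : ℝ} (hε : 0 < ε) :
    ∀ᶠ v in 𝓝 (1 : H), ∀ F : H →ᵇ ℝ, |∫ u, F (u * v) ∂μ - ∫ u, F u ∂μ| ≤ ε * ‖F‖ := by
  have h2 := left_shift m (inv_ac m hμ) hε
  have h4 : Tendsto (fun v : H => v⁻¹) (𝓝 1) (𝓝 1) := by
    have := (continuous_inv (G := H)).tendsto 1
    rwa [inv_one] at this
  filter_upwards [h4.eventually h2] with v hv F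
  let G : H →ᵇ ℝ := F.compContinuous ⟨fun w => w⁻¹, by fun_prop⟩
  have h7 := hv G
  have h8 : ∫ u, G (v⁻¹ * u) ∂(μ.map Inv.inv) = ∫ u, F (u * v) ∂μ := by
    have hGm : AEStronglyMeasurable (fun u => G (v⁻¹ * u)) (μ.map Inv.inv) :=
      (G.continuous.comp (continuous_const_mul _)).aestronglyMeasurable
    rw [integral_map measurable_inv.aemeasurable hGm]
    congr 1
    funext u
    show F ((v⁻¹ * u⁻¹)⁻¹) = _
    rw [mul_inv_rev, inv_inv, inv_inv]
  have h9 : ∫ u, G u ∂(μ.map Inv.inv) = ∫ u, F u ∂μ := by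
    rw [integral_map measurable_inv.aemeasurable G.continuous.aestronglyMeasurable]
    congr 1
    funext u
    show F (u⁻¹⁻¹) = _
    rw [inv_inv]
  rw [h8, h9] at h7
  refine h7.trans ?_
  gcongr
  rw [norm_le (norm_nonneg _)]
  intro x
  exact F.norm_coe_le_norm _

theorem lt_LL_cont {μ : Measure H} [IsFiniteMeasure μ] (hμ : μ ≪ m) (G : H →ᵇ ℝ) :
    Continuous fun u => lt (LL μ G) u := by
  rw [continuous_iff_continuousAt]
  intro u₀
  rw [ContinuousAt, Metric.tendsto_nhds]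
  intro ε hε
  have h1 := right_shift m hμ (show 0 < ε / (2 * (‖G‖ + 1)) by positivity)
  have h2 : Tendsto (fun u => u * u₀⁻¹) (𝓝 u₀) (𝓝 1) := by
    have := (continuous_mul_const (u₀⁻¹ : H)).tendsto u₀
    rwa [mul_inv_cancel] at this
  filter_upwards [h2.eventually h1] with u hu
  rw [dist_eq_norm]
  refine lt_of_le_of_lt ?_ (show ε / 2 < ε by linarith)
  rw [norm_le (by positivity)]
  intro x
  show ‖∫ v, G (v * (u * x)) ∂μ - ∫ v, G (v * (u₀ * x)) ∂μ‖ ≤ ε / 2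
  have h3 := hu (rt G (u₀ * x))
  have e1 : ∀ v, rt G (u₀ * x) (v * (u * u₀⁻¹)) = G (v * (u * x)) := by
    intro v
    rw [rt_apply]
    congr 1
    group
  simp only [e1, rt_apply] at h3
  rw [Real.norm_eq_abs]
  refine h3.trans ?_
  calc ε / (2 * (‖G‖ + 1)) * ‖rt G (u₀ * x)‖ ≤ ε / (2 * (‖G‖ + 1)) * (‖G‖ + 1) := by
        gcongr
        exact (rt_norm G _).trans (by linarith)
    _ = ε / 2 := by
        have : ‖G‖ + 1 ≠ 0 := by positivity
        field_simp

theorem IsLIM.const_ac {M : (H →ᵇ ℝ) →ₗ[ℝ] ℝ} (hM : IsLIM M) {μ μ' : Measure H}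
    [IsProbabilityMeasure μ] [IsProbabilityMeasure μ'] (hμ : μ ≪ m) (hμ' : μ' ≪ m) (G : H →ᵇ ℝ) :
    M (LL μ G) = M (LL μ' G) := by
  have key : ∀ (μ : Measure H) [IsProbabilityMeasure μ], μ ≪ m → ∀ ε : ℝ, 0 < ε →
      ∀ᶠ V in (𝓝 (1 : H)).smallSets, ∀ (κ : Measure H) [IsProbabilityMeasure κ], κ ≪ m →
      κ Vᶜ = 0 → |M (LL μ G) - M (LL κ G)| ≤ ε * ‖G‖ := by
    intro μ _ hμ ε hε
    filter_upwards [absorb m hμ hε] with V hV κ _ hκ hκV
    have h1 := (hV κ hκV).1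
    have h2 : M (LL κ G) = M (LL (κ ∗ₘ μ) G) := by
      rw [← LL_comp, hM.avg μ (lt_LL_cont m hκ G)]
    rw [h2, ← map_sub, ← Real.norm_eq_abs]
    refine (hM.bound _).trans ?_
    rw [one_mul, norm_le (by positivity)]
    intro x
    have h3 : (LL μ G - LL (κ ∗ₘ μ) G) x = -((TT κ * TT μ - TT μ) (rt G x) 1) := by
      rw [← TT_mconv]
      show ∫ u, G (u * x) ∂μ - ∫ u, G (u * x) ∂(κ ∗ₘ μ) =
        -(∫ u, rt G x (1 * u) ∂(κ ∗ₘ μ) - ∫ u, rt G x (1 * u) ∂μ)
      simp only [one_mul, rt_apply]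
      ring
    rw [h3, norm_neg]
    calc ‖(TT κ * TT μ - TT μ) (rt G x) 1‖ ≤ ‖(TT κ * TT μ - TT μ) (rt G x)‖ :=
          norm_coe_le_norm _ _
      _ ≤ ‖TT κ * TT μ - TT μ‖ * ‖rt G x‖ := ContinuousLinearMap.le_opNorm _ _
      _ ≤ ε * ‖G‖ := by
        gcongr
        exact rt_norm G x
  have h0 : ∀ ε : ℝ, 0 < ε → |M (LL μ G) - M (LL μ' G)| ≤ ε * (2 * ‖G‖) := by
    intro ε hε
    obtain ⟨V, hV, h1⟩ := eventually_smallSets.1 ((key μ hμ ε hε).and (key μ' hμ' ε hε))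
    obtain ⟨κ, hκp, hκac, hκV⟩ := exists_near m hV
    obtain ⟨h2, h3⟩ := h1 V subset_rfl
    have h4 := h2 κ hκac hκV
    have h5 := h3 κ hκac hκV
    rw [abs_le] at h4 h5 ⊢
    constructor <;> linarith
  by_contra hne
  have hpos : 0 < |M (LL μ G) - M (LL μ' G)| := abs_pos.mpr (sub_ne_zero.mpr hne)
  have h1 := h0 (|M (LL μ G) - M (LL μ' G)| / (2 * (2 * ‖G‖ + 1))) (by positivity)
  have h2 : |M (LL μ G) - M (LL μ' G)| / (2 * (2 * ‖G‖ + 1)) * (2 * ‖G‖) <
      |M (LL μ G) - M (LL μ' G)| := by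
    rw [div_mul_eq_mul_div, div_lt_iff₀ (by positivity)]
    nlinarith [norm_nonneg G]
  linarith

end Pool.Agent.J6H12.SG
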