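import Pool.Agent.J6H12.SG.Amen1

/-!
# From a left invariant mean to Reiter's condition
-/

set_option autoImplicit false
set_option linter.unusedSectionVars false

open Set Filter Topology MeasureTheory BoundedContinuousFunction

namespace Pool.Agent.J6H12.SG

open Pool.Agent.X196.CS

variable {H : Type*} [Group H] [TopologicalSpace H] [IsTopologicalGroup H] [LocallyCompactSpace H]
  [SecondCountableTopology H] [T2Space H] [MeasurableSpace H] [BorelSpace H]

variable (m : Measure H) [m.IsHaarMeasure]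

instance factOne : Fact ((1 : ENNReal) ≠ ⊤) := ⟨ENNReal.one_ne_top⟩

variable {m}

/-- left translation of an integrable function: `(T s f)(u) = f (s⁻¹ u)` -/
noncomputable def T (s : H) (f : Lp ℝ 1 m) : Lp ℝ 1 m := DomMulAct.mk s⁻¹ • f

theorem T_coe (s : H) (f : Lp ℝ 1 m) : T s f =ᵐ[m] fun u => f (s⁻¹ * u) :=
  DomMulAct.smul_Lp_ae_eq (DomMulAct.mk s⁻¹) f

theorem T_mul (a b : H) (f : Lp ℝ 1 m) : T (a * b) f = T a (T b f) := by
  unfold T
  rw [mul_inv_rev, DomMulAct.mk_mul, mul_smul]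

theorem T_norm (s : H) (f : Lp ℝ 1 m) : ‖T s f‖ = ‖f‖ := DomMulAct.norm_smul_Lp _ f

theorem T_sub (s : H) (f g : Lp ℝ 1 m) : T s (f - g) = T s f - T s g :=
  DomMulAct.smul_Lp_sub _ f g

theorem T_cont (f : Lp ℝ 1 m) : Continuous fun s => T s f := by
  have h3 : Continuous fun v : H => DomMulAct.mk v⁻¹ := (DomMulAct.continuous_mk).comp continuous_inv
  exact h3.smul continuous_const

/-- translation as a continuous linear map -/
noncomputable def TL (s : H) : Lp ℝ 1 m →L[ℝ] Lp ℝ 1 m :=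
  LinearMap.mkContinuous
    { toFun := fun f => T s f
      map_add' := fun f g => DomMulAct.smul_Lp_add _ f g
      map_smul' := fun c f => (smul_comm c (DomMulAct.mk s⁻¹) f).symm } 1 (fun f => by
        rw [one_mul]; exact (T_norm s f).le)

theorem TL_apply (s : H) (f : Lp ℝ 1 m) : TL s f = T s f := rfl

variable (m)

/-- the probability densities -/
def PD : Set (Lp ℝ 1 m) := {f | 0 ≤ f ∧ ∫ u, f u ∂m = 1}

variable {m}

theorem int_lp (f : Lp ℝ 1 m) : Integrable f m := memLp_one_iff_integrable.1 (Lp.memLp f)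

theorem int_add' (f g : Lp ℝ 1 m) : ∫ u, (f + g : Lp ℝ 1 m) u ∂m = ∫ u, f u ∂m + ∫ u, g u ∂m := by
  rw [← integral_add (int_lp f) (int_lp g)]
  exact integral_congr_ae (Lp.coeFn_add f g)

theorem int_smul' (c : ℝ) (f : Lp ℝ 1 m) : ∫ u, (c • f : Lp ℝ 1 m) u ∂m = c * ∫ u, f u ∂m := by
  rw [← integral_const_mul]
  exact integral_congr_ae (Lp.coeFn_smul c f)

theorem smul_nn {c : ℝ} (hc : 0 ≤ c) {f : Lp ℝ 1 m} (hf : 0 ≤ f) : 0 ≤ c • f := by
  rw [← Lp.coeFn_nonneg]
  filter_upwards [(Lp.coeFn_nonneg f).2 hf, Lp.coeFn_smul c f] with u h1 h2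
  rw [h2, Pi.smul_apply, smul_eq_mul]
  exact mul_nonneg hc h1

theorem PD_convex : Convex ℝ (PD m) := by
  intro f hf g hg a b ha hb hab
  refine ⟨add_nonneg (smul_nn ha hf.1) (smul_nn hb hg.1), ?_⟩
  rw [int_add', int_smul', int_smul', hf.2, hg.2, mul_one, mul_one, hab]

theorem int_cont' : Continuous fun f : Lp ℝ 1 m => ∫ u, f u ∂m := by
  have : (fun f : Lp ℝ 1 m => ∫ u, f u ∂m) = fun f : Lp ℝ 1 m => L1.integral f := by
    funext f
    exact (L1.integral_eq_integral f).symm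
  rw [this]
  exact L1.continuous_integral

theorem PD_closed : IsClosed (PD m) := by
  have h1 : IsClosed {f : Lp ℝ 1 m | 0 ≤ f} := isClosed_Ici
  have h2 : IsClosed {f : Lp ℝ 1 m | ∫ u, f u ∂m = 1} := isClosed_singleton.preimage int_cont'
  exact h1.inter h2

theorem T_mem (s : H) {f : Lp ℝ 1 m} (hf : f ∈ PD m) : T s f ∈ PD m := by
  refine ⟨?_, ?_⟩
  · rw [← Lp.coeFn_nonneg]
    have h1 := (Lp.coeFn_nonneg f).mpr hf.1
    have h2 : ∀ᵐ u ∂m, 0 ≤ f (s⁻¹ * u) :=
      (measurePreserving_mul_left m s⁻¹).quasiMeasurePreserving.ae h1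
    filter_upwards [T_coe s f, h2] with u h3 h4
    rw [h3]
    exact h4
  · rw [integral_congr_ae (T_coe s f), integral_mul_left_eq_self (fun u => f u) s⁻¹, hf.2]

/-- the measure with density `w` -/
noncomputable def mm (w : Lp ℝ 1 m) : Measure H := m.withDensity fun u => ENNReal.ofReal (w u)

theorem mm_ac (w : Lp ℝ 1 m) : mm w ≪ m := withDensity_absolutelyContinuous _ _

theorem mm_int {E : Type*} [NormedAddCommGroup E] [NormedSpace ℝ E] {w : Lp ℝ 1 m} (hw : 0 ≤ w)
    (F : H → E) : ∫ u, F u ∂(mm w) = ∫ u, w u • F u ∂m := by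
  unfold mm
  rw [integral_withDensity_eq_integral_toReal_smul
    (Lp.stronglyMeasurable w).measurable.ennreal_ofReal
    (Eventually.of_forall fun u => ENNReal.ofReal_lt_top)]
  apply integral_congr_ae
  filter_upwards [(Lp.coeFn_nonneg w).2 hw] with u hu
  rw [ENNReal.toReal_ofReal hu]

instance mm_fin (w : Lp ℝ 1 m) : IsFiniteMeasure (mm w) :=
  isFiniteMeasure_withDensity_ofReal (int_lp w).2

theorem mm_prob {w : Lp ℝ 1 m} (hw : w ∈ PD m) : IsProbabilityMeasure (mm w) := by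
  have h1 := mm_int hw.1 (fun _ : H => (1 : ℝ))
  simp only [smul_eq_mul, mul_one, hw.2, integral_const] at h1
  rw [measureReal_def] at h1
  refine ⟨?_⟩
  rw [← ENNReal.ofReal_toReal (measure_ne_top (mm w) univ), h1, ENNReal.ofReal_one]

/-- the convolution of a density with an integrable function -/
noncomputable def cv (w f : Lp ℝ 1 m) : Lp ℝ 1 m := ∫ v, T v f ∂(mm w)

theorem T_integrable (μ : Measure H) [IsFiniteMeasure μ] (f : Lp ℝ 1 m) :
    Integrable (fun v => T v f) μ :=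
  Integrable.of_bound (C := ‖f‖) (T_cont f).aestronglyMeasurable
    (Eventually.of_forall fun u => (T_norm u f).le)

theorem cv_mem {w f : Lp ℝ 1 m} (hw : w ∈ PD m) (hf : f ∈ PD m) : cv w f ∈ PD m := by
  have := mm_prob hw
  exact PD_convex.integral_mem PD_closed (Eventually.of_forall fun v => T_mem v hf)
    (T_integrable _ f)

theorem cv_sub (w f g : Lp ℝ 1 m) : cv w (f - g) = cv w f - cv w g := by
  unfold cv
  rw [← integral_sub (T_integrable _ f) (T_integrable _ g)]
  congr 1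
  funext v
  exact T_sub v f g

theorem smulT_integrable (w f : Lp ℝ 1 m) : Integrable (fun v => w v • T v f) m :=
  (int_lp w).smul_bdd (C := ‖f‖) (T_cont f).aestronglyMeasurable
    (Eventually.of_forall fun u => (T_norm u f).le)

theorem cv_diff {w w' : Lp ℝ 1 m} (hw : 0 ≤ w) (hw' : 0 ≤ w') (f : Lp ℝ 1 m) :
    ‖cv w f - cv w' f‖ ≤ ‖w - w'‖ * ‖f‖ := by
  unfold cv
  rw [mm_int hw, mm_int hw', ← integral_sub (smulT_integrable w f) (smulT_integrable w' f)]
  refine (norm_integral_le_integral_norm _).trans ?_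
  rw [L1.norm_eq_integral_norm, ← integral_mul_const]
  refine integral_mono_ae ((smulT_integrable w f).sub (smulT_integrable w' f)).norm
    ((int_lp (w - w')).norm.mul_const _) ?_
  filter_upwards [Lp.coeFn_sub w w'] with u hu
  rw [hu, Pi.sub_apply]
  show ‖w u • T u f - w' u • T u f‖ ≤ ‖w u - w' u‖ * ‖f‖
  rw [← sub_smul, norm_smul, T_norm]

theorem T_cv {w : Lp ℝ 1 m} (hw : w ∈ PD m) (s : H) (f : Lp ℝ 1 m) :
    T s (cv w f) = cv (T s w) f := by
  unfold cv
  rw [← TL_apply, ← (TL s).integral_comp_comm (T_integrable _ f), mm_int hw.1,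
    mm_int (T_mem s hw).1]
  have h1 : ∫ u, T s w u • T u f ∂m = ∫ u, w (s⁻¹ * u) • T u f ∂m := by
    apply integral_congr_ae
    filter_upwards [T_coe s w] with u hu
    rw [hu]
  rw [h1, ← integral_mul_left_eq_self (fun u => w (s⁻¹ * u) • T u f) s]
  congr 1
  funext u
  rw [inv_mul_cancel_left, TL_apply, T_mul]

/-- a probability density exists -/
theorem PD_nonempty : ∃ w, w ∈ PD m := by
  obtain ⟨ρ, hρ, hρac, _⟩ := exists_near m (univ_mem : (univ : Set H) ∈ 𝓝 (1 : H))
  refine ⟨dens m ρ, ?_, ?_⟩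
  · rw [← Lp.coeFn_nonneg]
    filter_upwards [dens_coe m ρ] with u hu
    show 0 ≤ (dens m ρ) u
    rw [hu]
    exact ENNReal.toReal_nonneg
  · have h := int_dens m hρac (const H 1)
    simp only [const_apply, one_mul, integral_const, smul_eq_mul, mul_one, probReal_univ] at h
    exact h.symm

/-- Day's argument -/
theorem day {M : (H →ᵇ ℝ) →ₗ[ℝ] ℝ} (hM : IsLIM M) {ι : Type*} [Fintype ι] (w : ι → Lp ℝ 1 m)
    (hw : ∀ i, w i ∈ PD m) {ε : ℝ} (hε : 0 < ε) : ∃ f ∈ PD m, ∀ i, ‖cv (w i) f - f‖ < ε := by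
  classical
  by_contra hcon
  push Not at hcon
  let D : Set (ι → Lp ℝ 1 m) := (fun f => fun i => cv (w i) f - f) '' PD m
  have hDconv : Convex ℝ D := by
    rintro _ ⟨f, hf, rfl⟩ _ ⟨g, hg, rfl⟩ a b ha hb hab
    refine ⟨a • f + b • g, PD_convex hf hg ha hb hab, ?_⟩
    funext i
    show cv (w i) (a • f + b • g) - (a • f + b • g) =
      a • (cv (w i) f - f) + b • (cv (w i) g - g)
    have h1 : cv (w i) (a • f + b • g) = a • cv (w i) f + b • cv (w i) g := by
      unfold cv
      rw [← integral_smul, ← integral_smul, ← integral_add]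
      · congr 1
        funext v
        rw [← TL_apply, map_add, map_smul, map_smul]
        rfl
      · exact (T_integrable _ f).smul a
      · exact (T_integrable _ g).smul b
    rw [h1, smul_sub, smul_sub]
    abel
  have h0 : (0 : ι → Lp ℝ 1 m) ∉ closure D := by
    intro h
    rw [Metric.mem_closure_iff] at h
    obtain ⟨_, ⟨f, hf, rfl⟩, hd⟩ := h ε hε
    obtain ⟨i, hi⟩ := hcon f hf
    rw [dist_zero_left] at hd
    exact absurd ((norm_le_pi_norm _ i).trans_lt hd) (not_lt.mpr hi)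
  obtain ⟨Ψ, δ, hδ, hΨ⟩ := geometric_hahn_banach_point_closed hDconv.closure isClosed_closure h0
  rw [map_zero] at hδ
  obtain ⟨w0, hw0⟩ := PD_nonempty (m := m)
  let Ψi : ι → (Lp ℝ 1 m →L[ℝ] ℝ) := fun i =>
    Ψ.comp (ContinuousLinearMap.single ℝ (fun _ : ι => Lp ℝ 1 m) i)
  have hsum : ∀ v : ι → Lp ℝ 1 m, Ψ v = ∑ i, Ψi i (v i) := by
    intro v
    conv_lhs => rw [← Finset.univ_sum_single v, map_sum]
    rfl
  let F : ι → H →ᵇ ℝ := fun i => BoundedContinuousFunction.ofNormedAddCommGroup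
    (fun x => Ψi i (T x w0)) ((Ψi i).continuous.comp (T_cont w0)) (‖Ψi i‖ * ‖w0‖) (fun x => by
      have := (Ψi i).le_opNorm (T x w0)
      rwa [T_norm] at this)
  let G : H →ᵇ ℝ := ∑ i, (LL (mm (w i)) (F i) - F i)
  have hGx : ∀ x, δ ≤ G x := by
    intro x
    have h1 := hΨ _ (subset_closure ⟨T x w0, T_mem x hw0, rfl⟩)
    rw [hsum] at h1
    have h2 : G x = ∑ i, Ψi i (cv (w i) (T x w0) - T x w0) := by
      show (∑ i, (LL (mm (w i)) (F i) - F i)) x = _
      rw [BoundedContinuousFunction.coe_sum, Finset.sum_apply]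
      apply Finset.sum_congr rfl
      intro i _
      rw [map_sub]
      show LL (mm (w i)) (F i) x - F i x = _
      congr 1
      unfold cv
      rw [← (Ψi i).integral_comp_comm (T_integrable _ _)]
      show ∫ u, F i (u * x) ∂(mm (w i)) = _
      congr 1
      funext u
      show Ψi i (T (u * x) w0) = _
      rw [T_mul]
    rw [h2]
    exact h1.le
  have hp0 := mm_prob hw0
  have hMG : δ ≤ M (LL (mm w0) G) := by
    have h1 := hM.nonneg (LL (mm w0) G - δ • const H 1) (fun x => by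
      show 0 ≤ ∫ u, G (u * x) ∂(mm w0) - δ * 1
      have h2 : ∫ _, δ ∂(mm w0) ≤ ∫ u, G (u * x) ∂(mm w0) :=
        integral_mono (integrable_const _) (int_rt _ G x) fun u => hGx _
      simp only [integral_const, smul_eq_mul, probReal_univ, one_mul] at h2
      linarith)
    rw [map_sub, map_smul, hM.one, smul_eq_mul, mul_one] at h1
    linarith
  have hzero : M (LL (mm w0) G) = 0 := by
    show M (LL (mm w0) (∑ i, (LL (mm (w i)) (F i) - F i))) = 0
    rw [LL_sum, map_sum]
    apply Finset.sum_eq_zero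
    intro i _
    have hpi := mm_prob (hw i)
    rw [LL_sub, map_sub, LL_comp, hM.const_ac m (μ' := mm w0)
      (Measure.mconv_absolutelyContinuous (mm_ac w0)) (mm_ac w0), sub_self]
  linarith

/-- Reiter's condition for integrable functions -/
theorem reiter1 {M : (H →ᵇ ℝ) →ₗ[ℝ] ℝ} (hM : IsLIM M) {K : Set H} (hK : IsCompact K) {ε : ℝ}
    (hε : 0 < ε) : ∃ f ∈ PD m, ∀ s ∈ K, ‖T s f - f‖ ≤ ε := by
  classical
  obtain ⟨w, hw⟩ := PD_nonempty (m := m)
  have hcomp : IsCompact ((fun s => T s w) '' K) := hK.image (T_cont w)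
  obtain ⟨t, htK, htf, hcov⟩ := hcomp.finite_cover_balls (show 0 < ε / 3 by positivity)
  have htf' := htf.fintype
  have hmem : ∀ x : t, (x : Lp ℝ 1 m) ∈ PD m := by
    intro x
    obtain ⟨s, _, hs⟩ := htK x.2
    rw [← hs]
    exact T_mem s hw
  obtain ⟨f, hf, hff⟩ := day hM (ι := Option t) (fun o => o.elim w fun x => (x : Lp ℝ 1 m))
    (fun o => by
      cases o with
      | none => exact hw
      | some x => exact hmem x) (show 0 < ε / 3 by positivity)
  have hf1 : ‖f‖ = 1 := by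
    rw [L1.norm_eq_integral_norm, ← hf.2]
    apply integral_congr_ae
    filter_upwards [(Lp.coeFn_nonneg f).2 hf.1] with u hu
    rw [Real.norm_eq_abs, abs_of_nonneg hu]
  refine ⟨cv w f, cv_mem hw hf, ?_⟩
  intro s hs
  rw [T_cv hw]
  have h1 : T s w ∈ ⋃ x ∈ t, Metric.ball x (ε / 3) := hcov ⟨s, hs, rfl⟩
  rw [mem_iUnion₂] at h1
  obtain ⟨x, hxt, hx⟩ := h1
  rw [Metric.mem_ball, dist_eq_norm] at hx
  have h2 := hff (some ⟨x, hxt⟩)
  have h3 := hff none
  simp only [Option.elim] at h2 h3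
  have h4 := cv_diff (T_mem s hw).1 (hmem ⟨x, hxt⟩).1 f
  rw [hf1, mul_one] at h4
  have h5 : cv (T s w) f - cv w f = (cv (T s w) f - cv x f) + (cv x f - f) - (cv w f - f) := by
    abel
  rw [h5]
  refine (norm_sub_le _ _).trans ?_
  have h6 := norm_add_le (cv (T s w) f - cv x f) (cv x f - f)
  simp only at h4
  linarith

end Pool.Agent.J6H12.SG
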