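import Mathlib

/-!
# The energy of the orbits of a semigroup of positive contractions
-/

set_option autoImplicit false

open Set Filter Topology
open scoped InnerProductSpace ComplexConjugate

namespace Pool.Agent.J6H12.SG

variable {E : Type*} [NormedAddCommGroup E] [InnerProductSpace ℂ E] [CompleteSpace E]

theorem energy (A : E →L[ℂ] E) (hs : ∀ x y, ⟪A x, y⟫_ℂ = ⟪x, A y⟫_ℂ)
    {t : ℝ} (ht : 0 < t) (x : E) :
    (⟪A (NormedSpace.exp (t • (-A)) x), NormedSpace.exp (t • (-A)) x⟫_ℂ).re ≤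
      ‖x‖ ^ 2 / (2 * t) := by
  let y : ℝ → E := fun s => NormedSpace.exp (s • (-A)) x
  have hy : ∀ s, HasDerivAt y (-(A (y s))) s := by
    intro s
    have h1 : HasDerivAt (fun u : ℝ => NormedSpace.exp (u • (-A)))
        ((-A) * NormedSpace.exp (s • (-A))) s :=
      hasDerivAt_exp_smul_const' (𝕂 := ℝ) (-A) s
    have h2 : HasDerivAt (fun u : ℝ => (ContinuousLinearMap.apply ℂ E x).restrictScalars ℝ
        (NormedSpace.exp (u • (-A)))) ((ContinuousLinearMap.apply ℂ E x).restrictScalars ℝ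
        ((-A) * NormedSpace.exp (s • (-A)))) s :=
      (((ContinuousLinearMap.apply ℂ E x).restrictScalars ℝ).hasFDerivAt).comp_hasDerivAt s h1
    exact h2
  -- the norm and the energy
  let g : ℝ → ℝ := fun s => (⟪y s, y s⟫_ℂ).re
  let h : ℝ → ℝ := fun s => (⟪A (y s), y s⟫_ℂ).re
  have hre : ∀ (u v : ℝ → E) (u' v' : E) (s : ℝ), HasDerivAt u u' s → HasDerivAt v v' s →
      HasDerivAt (fun s => (⟪u s, v s⟫_ℂ).re) ((⟪u s, v'⟫_ℂ + ⟪u', v s⟫_ℂ).re) s := by
    intro u v u' v' s hu hv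
    have h1 : HasDerivAt (fun s => ⟪u s, v s⟫_ℂ) (⟪u s, v'⟫_ℂ + ⟪u', v s⟫_ℂ) s :=
      HasDerivAt.inner ℂ hu hv
    exact Complex.reCLM.hasFDerivAt.comp_hasDerivAt s h1
  have hg : ∀ s, HasDerivAt g (-2 * h s) s := by
    intro s
    have h1 := hre y y _ _ s (hy s) (hy s)
    convert h1 using 1
    rw [Complex.add_re, inner_neg_right, inner_neg_left, Complex.neg_re, Complex.neg_re]
    have h2 : (⟪y s, A (y s)⟫_ℂ).re = (⟪A (y s), y s⟫_ℂ).re := by
      rw [hs]
    rw [h2]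
    show -2 * (⟪A (y s), y s⟫_ℂ).re = _
    ring
  have hAy : ∀ s, HasDerivAt (fun s => A (y s)) (-(A (A (y s)))) s := by
    intro s
    have h1 : HasDerivAt (fun s => (A.restrictScalars ℝ) (y s))
        ((A.restrictScalars ℝ) (-(A (y s)))) s :=
      ((A.restrictScalars ℝ).hasFDerivAt).comp_hasDerivAt s (hy s)
    rw [map_neg] at h1
    exact h1
  have hh : ∀ s, HasDerivAt h (-2 * ‖A (y s)‖ ^ 2) s := by
    intro s
    have h1 := hre (fun s => A (y s)) y _ _ s (hAy s) (hy s)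
    convert h1 using 1
    rw [Complex.add_re, inner_neg_right, inner_neg_left, Complex.neg_re, Complex.neg_re]
    have h2 : (⟪A (A (y s)), y s⟫_ℂ).re = ‖A (y s)‖ ^ 2 := by
      rw [hs]
      exact inner_self_eq_norm_sq (𝕜 := ℂ) (A (y s))
    have h3 : (⟪A (y s), A (y s)⟫_ℂ).re = ‖A (y s)‖ ^ 2 :=
      inner_self_eq_norm_sq (𝕜 := ℂ) (A (y s))
    rw [h2, h3]
    ring
  have hanti : Antitone h := by
    apply antitone_of_deriv_nonpos
    · exact fun s => (hh s).differentiableAt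
    · intro s
      rw [(hh s).deriv]
      nlinarith [sq_nonneg ‖A (y s)‖]
  obtain ⟨c, hc, hceq⟩ := exists_hasDerivAt_eq_slope g (fun s => -2 * h s) ht
    (fun s _ => (hg s).continuousAt.continuousWithinAt) (fun s _ => hg s)
  have h1 : h t ≤ h c := hanti hc.2.le
  have h2 : 0 ≤ g t := by
    have : g t = ‖y t‖ ^ 2 := inner_self_eq_norm_sq (𝕜 := ℂ) (y t)
    rw [this]; positivity
  have h3 : g 0 = ‖x‖ ^ 2 := by
    have : g 0 = ‖y 0‖ ^ 2 := inner_self_eq_norm_sq (𝕜 := ℂ) (y 0)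
    rw [this]
    show ‖NormedSpace.exp ((0 : ℝ) • (-A)) x‖ ^ 2 = _
    rw [zero_smul, NormedSpace.exp_zero]
    rfl
  rw [sub_zero, eq_div_iff ht.ne'] at hceq
  show h t ≤ _
  rw [le_div_iff₀ (by positivity)]
  nlinarith

end Pool.Agent.J6H12.SG
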