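import Pool.Agent.J6H12.SG.Semi2
import Pool.Agent.J6H12.SG.Energy

/-!
# Part (a)
-/

set_option autoImplicit false
set_option linter.unusedSectionVars false

open Set Filter Topology MeasureTheory BoundedContinuousFunction
open scoped InnerProductSpace ComplexConjugate NNReal

namespace Pool.Agent.J6H12.SG

open Pool.Agent.X196.CS

variable {H : Type*} [Group H] [TopologicalSpace H] [IsTopologicalGroup H] [LocallyCompactSpace H]
  [SecondCountableTopology H] [T2Space H] [MeasurableSpace H] [BorelSpace H]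

variable {m : Measure H} [m.IsHaarMeasure]

theorem normsq (g : Lp ℂ 2 m) : ‖g‖ ^ 2 = ∫ u, ‖g u‖ ^ 2 ∂m := by
  have h1 : (⟪g, g⟫_ℂ).re = ‖g‖ ^ 2 := inner_self_eq_norm_sq (𝕜 := ℂ) g
  rw [← h1, L2.inner_def]
  have h2 : ∀ u, ⟪g u, g u⟫_ℂ = ((‖g u‖ ^ 2 : ℝ) : ℂ) := by
    intro u
    rw [inner_self_eq_norm_sq_to_K]
    push_cast
    rfl
  simp only [h2]
  rw [integral_complex_ofReal, Complex.ofReal_re]

/-- the square root of a density -/
theorem sqrt_memLp {f : Lp ℝ 1 m} (hf : f ∈ PD m) :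
    MemLp (fun u => ((√(f u) : ℝ) : ℂ)) 2 m := by
  have hmeas : AEStronglyMeasurable (fun u => ((√(f u) : ℝ) : ℂ)) m := by
    apply Measurable.aestronglyMeasurable
    exact Complex.measurable_ofReal.comp ((Lp.stronglyMeasurable f).measurable.sqrt)
  rw [memLp_two_iff_integrable_sq_norm hmeas]
  refine (int_lp f).congr ?_
  filter_upwards [(Lp.coeFn_nonneg f).2 hf.1] with u hu
  rw [Complex.norm_real, Real.norm_eq_abs, sq_abs, Real.sq_sqrt hu]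

theorem reiter2 {M : (H →ᵇ ℝ) →ₗ[ℝ] ℝ} (hM : IsLIM M) {K : Set H} (hK : IsCompact K) {ε : ℝ}
    (hε : 0 < ε) : ∃ ξ : Lp ℂ 2 m, ‖ξ‖ = 1 ∧ (∀ s ∈ K, ‖lam m s ξ - ξ‖ ≤ ε) ∧
      ∃ q : H → ℝ, (∀ u, 0 ≤ q u) ∧ ξ =ᵐ[m] fun u => (q u : ℂ) := by
  obtain ⟨f, hf, hfK⟩ := reiter1 (m := m) hM hK (show 0 < ε ^ 2 by positivity)
  have hf0 := (Lp.coeFn_nonneg f).2 hf.1
  set ξ : Lp ℂ 2 m := (sqrt_memLp hf).toLp _ with hξ
  have hξc : ξ =ᵐ[m] fun u => ((√(f u) : ℝ) : ℂ) := MemLp.coeFn_toLp _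
  refine ⟨ξ, ?_, ?_, ⟨fun u => √(f u), fun u => Real.sqrt_nonneg _, hξc⟩⟩
  · have h1 : ‖ξ‖ ^ 2 = 1 := by
      rw [normsq, ← hf.2]
      apply integral_congr_ae
      filter_upwards [hξc, hf0] with u h2 h3
      rw [h2, Complex.norm_real, Real.norm_eq_abs, sq_abs, Real.sq_sqrt h3]
    have h2 : ‖ξ‖ = √(‖ξ‖ ^ 2) := (Real.sqrt_sq (norm_nonneg _)).symm
    rw [h2, h1, Real.sqrt_one]
  · intro s hs
    have h0 := hfK s hs
    have h1 : ‖lam m s ξ - ξ‖ ^ 2 ≤ ε ^ 2 := by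
      refine le_trans ?_ h0
      rw [normsq, L1.norm_eq_integral_norm]
      have i2 : Integrable (fun u => ‖(T s f - f : Lp ℝ 1 m) u‖) m := (int_lp _).norm
      refine integral_mono_of_nonneg (Eventually.of_forall fun u => by positivity) i2 ?_
      have q1 : ∀ᵐ u ∂m, ξ (s⁻¹ * u) = ((√(f (s⁻¹ * u)) : ℝ) : ℂ) :=
        (measurePreserving_mul_left m s⁻¹).quasiMeasurePreserving.ae hξc
      have q2 : ∀ᵐ u ∂m, 0 ≤ f (s⁻¹ * u) :=
        (measurePreserving_mul_left m s⁻¹).quasiMeasurePreserving.ae hf0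
      filter_upwards [Lp.coeFn_sub (lam m s ξ) ξ, Lp.coeFn_sub (T s f) f, lam_coe s ξ, T_coe s f,
        hξc, q1, hf0, q2] with u a1 a2 a3 a4 a5 a6 a7 a8
      rw [a1, a2, Pi.sub_apply, Pi.sub_apply, a3, a4, a5, a6, ← Complex.ofReal_sub,
        Complex.norm_real, Real.norm_eq_abs, Real.norm_eq_abs, sq_abs]
      have b1 := Real.sq_sqrt a7
      have b2 := Real.sq_sqrt a8
      have b3 := Real.sqrt_nonneg (f u)
      have b4 := Real.sqrt_nonneg (f (s⁻¹ * u))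
      have b7 : 0 ≤ f u := a7
      set x := √(f (s⁻¹ * u)) with hx
      set y := √(f u) with hy
      rw [← b2, ← b1]
      have e : x ^ 2 - y ^ 2 = (x - y) * (x + y) := by ring
      rw [e, abs_mul, abs_of_nonneg (by positivity : 0 ≤ x + y), ← sq_abs (x - y), sq]
      gcongr
      rw [abs_le]
      constructor <;> linarith
    exact (pow_le_pow_iff_left₀ (norm_nonneg _) hε.le (by norm_num)).mp h1

/-- On an amenable group `λ(μ)` has norm one for every probability measure. -/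
theorem lamM_norm_one {M : (H →ᵇ ℝ) →ₗ[ℝ] ℝ} (hM : IsLIM M) (μ : Measure H)
    [IsProbabilityMeasure μ] : ‖lamM m μ‖ = 1 := by
  refine le_antisymm (lamM_norm μ) ?_
  apply le_of_forall_pos_le_add
  intro ε hε
  obtain ⟨K, _, hK, hKm⟩ := MeasurableSet.univ.exists_isCompact_lt_add (μ := μ)
    (measure_ne_top μ univ) (ε := ENNReal.ofReal (ε / 4)) (by
      rw [ne_eq, ENNReal.ofReal_eq_zero, not_le]; positivity)
  obtain ⟨ξ, hξ1, hξK, _⟩ := reiter2 (m := m) hM hK (show 0 < ε / 4 by positivity)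
  have hKc : μ.real Kᶜ ≤ ε / 4 := by
    have h1 : μ Kᶜ ≤ ENNReal.ofReal (ε / 4) := by
      rw [measure_compl hK.measurableSet (measure_ne_top μ K)]
      exact tsub_le_iff_left.mpr hKm.le
    rw [measureReal_def]
    exact ENNReal.toReal_le_of_le_ofReal (by positivity) h1
  have h1 : lamM m μ ξ - ξ = ∫ s, (lam m s ξ - ξ) ∂μ := by
    rw [integral_sub (lam_integrable μ ξ) (integrable_const _)]
    simp [lamM_apply]
  have hint : Integrable (fun s => ‖lam m s ξ - ξ‖) μ :=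
    ((lam_integrable μ ξ).sub (integrable_const _)).norm
  have h2 : ‖lamM m μ ξ - ξ‖ ≤ ε := by
    rw [h1]
    refine (norm_integral_le_integral_norm _).trans ?_
    rw [← integral_add_compl hK.measurableSet hint]
    have h3 : ∫ s in K, ‖lam m s ξ - ξ‖ ∂μ ≤ ε / 4 := by
      have h4 : ∫ s in K, ‖lam m s ξ - ξ‖ ∂μ ≤ ∫ s in K, ε / 4 ∂μ :=
        setIntegral_mono_on hint.integrableOn (integrable_const _) hK.measurableSet hξK
      refine h4.trans ?_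
      rw [setIntegral_const, smul_eq_mul]
      have h5 : μ.real K ≤ 1 := measureReal_le_one
      nlinarith
    have h3' : ∫ s in Kᶜ, ‖lam m s ξ - ξ‖ ∂μ ≤ ε / 2 := by
      have h4 : ∫ s in Kᶜ, ‖lam m s ξ - ξ‖ ∂μ ≤ ∫ s in Kᶜ, (2 : ℝ) ∂μ := by
        apply setIntegral_mono_on hint.integrableOn (integrable_const _) hK.measurableSet.compl
        intro s _
        refine (norm_sub_le _ _).trans ?_
        rw [lam_norm, hξ1]
        norm_num
      refine h4.trans ?_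
      rw [setIntegral_const, smul_eq_mul]
      linarith
    linarith
  have h3 : (1 : ℝ) ≤ ‖lamM m μ ξ‖ + ε := by
    have h4 : ξ = lamM m μ ξ - (lamM m μ ξ - ξ) := by abel
    have h5 : ‖ξ‖ ≤ ‖lamM m μ ξ‖ + ‖lamM m μ ξ - ξ‖ := by
      conv_lhs => rw [h4]
      exact norm_sub_le _ _
    rw [hξ1] at h5
    linarith
  have h4 := (lamM m μ).le_opNorm ξ
  rw [hξ1, mul_one] at h4
  linarith

/-- domination of an absolutely continuous measure -/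
theorem domin {ω ρ : Measure H} [IsProbabilityMeasure ω] [IsProbabilityMeasure ρ] (h : ω ≪ ρ)
    {ε : ℝ} (hε : 0 < ε) : ∃ C : ℝ≥0, ∃ S : Set H, MeasurableSet S ∧ ω.real Sᶜ ≤ ε ∧
      ω.restrict S ≤ C • ρ := by
  have hw : Measurable (ω.rnDeriv ρ) := Measure.measurable_rnDeriv ω ρ
  have hdec : Antitone fun n : ℕ => {x | (n : ENNReal) < ω.rnDeriv ρ x} := by
    intro a b hab x hx
    have h1 : (b : ENNReal) < ω.rnDeriv ρ x := hx
    have h2 : (a : ENNReal) ≤ b := by exact_mod_cast hab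
    exact h2.trans_lt h1
  have hmeas : ∀ n : ℕ, MeasurableSet {x | (n : ENNReal) < ω.rnDeriv ρ x} := fun n =>
    measurableSet_lt measurable_const hw
  have h1 := tendsto_measure_iInter_atTop (μ := ω) (fun n => (hmeas n).nullMeasurableSet) hdec
    ⟨0, measure_ne_top _ _⟩
  have h2 : ω (⋂ n : ℕ, {x | (n : ENNReal) < ω.rnDeriv ρ x}) = 0 := by
    apply h
    have h3 : ∀ᵐ x ∂ρ, ω.rnDeriv ρ x < ⊤ := Measure.rnDeriv_lt_top ω ρ
    rw [ae_iff] at h3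
    refine measure_mono_null ?_ h3
    intro x hx hlt
    rw [mem_iInter] at hx
    obtain ⟨n, hn⟩ := ENNReal.exists_nat_gt hlt.ne
    exact absurd (hx n) (not_lt.mpr hn.le)
  rw [h2] at h1
  have h4 := h1.eventually (gt_mem_nhds (show (0 : ENNReal) < ENNReal.ofReal ε by
    rw [ENNReal.ofReal_pos]; exact hε))
  obtain ⟨n, hn⟩ := h4.exists
  refine ⟨n, {x | (n : ENNReal) < ω.rnDeriv ρ x}ᶜ, (hmeas n).compl, ?_, ?_⟩
  · rw [compl_compl, measureReal_def]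
    exact ENNReal.toReal_le_of_le_ofReal hε.le hn.le
  · refine Measure.le_iff.2 fun A hA => ?_
    rw [Measure.restrict_apply hA, Measure.smul_apply]
    have e0 : ω (A ∩ {x | (n : ENNReal) < ω.rnDeriv ρ x}ᶜ) =
        ∫⁻ x in A ∩ {x | (n : ENNReal) < ω.rnDeriv ρ x}ᶜ, ω.rnDeriv ρ x ∂ρ := by
      rw [← withDensity_apply _ (hA.inter (hmeas n).compl), Measure.withDensity_rnDeriv_eq ω ρ h]
    rw [e0]
    calc ∫⁻ x in A ∩ {x | (n : ENNReal) < ω.rnDeriv ρ x}ᶜ, ω.rnDeriv ρ x ∂ρ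
        ≤ ∫⁻ x in A ∩ {x | (n : ENNReal) < ω.rnDeriv ρ x}ᶜ, (n : ENNReal) ∂ρ := by
          apply setLIntegral_mono measurable_const
          intro x hx
          exact not_lt.mp hx.2
      _ = n * ρ (A ∩ {x | (n : ENNReal) < ω.rnDeriv ρ x}ᶜ) := by rw [setLIntegral_const]
      _ ≤ n * ρ A := by gcongr; exact inter_subset_left
      _ = (n : ℝ≥0) • ρ A := by
          rw [ENNReal.smul_def, smul_eq_mul]
          simp

theorem half_form (ρ : Measure H) [IsProbabilityMeasure ρ] (η : Lp ℂ 2 m) :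
    ∫ s, ‖lam m s η - η‖ ^ 2 ∂ρ = 2 * (⟪η, η - lamM m ρ η⟫_ℂ).re := by
  have h1 : ∀ s, ‖lam m s η - η‖ ^ 2 = 2 * ‖η‖ ^ 2 - 2 * (⟪η, lam m s η⟫_ℂ).re := by
    intro s
    have h2 := norm_sub_sq (𝕜 := ℂ) (lam m s η) η
    rw [lam_norm] at h2
    rw [h2]
    have h3 : RCLike.re ⟪lam m s η, η⟫_ℂ = (⟪η, lam m s η⟫_ℂ).re := by
      rw [← inner_conj_symm]
      exact Complex.conj_re _
    rw [h3]
    ring
  simp only [h1]
  have hi : Integrable (fun s => ⟪η, lam m s η⟫_ℂ) ρ :=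
    (innerSL ℂ η).integrable_comp (lam_integrable ρ η)
  have hi' : Integrable (fun s => (⟪η, lam m s η⟫_ℂ).re) ρ := hi.re
  have h6 : ∫ s, 2 * (⟪η, lam m s η⟫_ℂ).re ∂ρ = 2 * ∫ s, (⟪η, lam m s η⟫_ℂ).re ∂ρ :=
    integral_const_mul _ _
  rw [integral_sub (integrable_const _) (hi'.const_mul _), h6]
  have h4 : ∫ s, (⟪η, lam m s η⟫_ℂ).re ∂ρ = (⟪η, lamM m ρ η⟫_ℂ).re := by
    rw [lamM_inner]
    exact integral_re hi
  rw [h4, inner_sub_right, Complex.sub_re]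
  have h5 : (⟪η, η⟫_ℂ).re = ‖η‖ ^ 2 := inner_self_eq_norm_sq (𝕜 := ℂ) η
  rw [h5]
  simp only [integral_const, probReal_univ, smul_eq_mul, one_mul]
  ring

/-- The key estimate: the operators `λ(ν)` of the semigroup almost absorb `λ_s`. -/
theorem key_a {r : ℕ → Alg H} (hr : ∀ k, r k ∈ PS m) {t : ℝ} (ht : 0 < t) {ν : Measure H}
    [IsFiniteMeasure ν]
    (hν : Tendsto (fun N : ℕ => xx (∑ k ∈ Finset.range N, r k) N t) atTop (𝓝 (TA ν))) :
    ∃ (ρ : Measure H) (_ : IsProbabilityMeasure ρ), m ≪ ρ ∧ r 0 = TA ρ ∧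
      ∀ ξ : Lp ℂ 2 m, ∫ s, ‖lam m s (lamM m ν ξ) - lamM m ν ξ‖ ^ 2 ∂ρ ≤ ‖ξ‖ ^ 2 / t := by
  choose ρ hρp hρ1 hρ2 hρs hρT using hr
  refine ⟨ρ 0, hρp 0, hρ2 0, hρT 0, ?_⟩
  -- operators on `L²`
  let R : ℕ → Lp ℂ 2 m →L[ℂ] Lp ℂ 2 m := fun N => ∑ k ∈ Finset.range N, lamM m (ρ k)
  let A : ℕ → Lp ℂ 2 m →L[ℂ] Lp ℂ 2 m := fun N => (N : ℝ) • (1 : Lp ℂ 2 m →L[ℂ] Lp ℂ 2 m) - R N
  have hRel : ∀ N : ℕ, Rel m (xx (∑ k ∈ Finset.range N, r k) N t)
      (NormedSpace.exp (t • (-(A N)))) := by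
    intro N
    unfold xx
    apply Rel.exp
    apply Rel.smul
    have h1 : -(A N) = R N - (N : ℝ) • (1 : Lp ℂ 2 m →L[ℂ] Lp ℂ 2 m) := by
      show -((N : ℝ) • (1 : Lp ℂ 2 m →L[ℂ] Lp ℂ 2 m) - R N) = _
      abel
    rw [h1]
    apply Rel.sub
    · apply Rel.sum
      intro k
      rw [hρT k]
      exact rel_TA (ρ k)
    · exact rel_one.smul _
  have hconv : Tendsto (fun N : ℕ => NormedSpace.exp (t • (-(A N)))) atTop (𝓝 (lamM m ν)) := by
    rw [tendsto_iff_norm_sub_tendsto_zero] at hν ⊢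
    exact squeeze_zero (fun _ => norm_nonneg _)
      (fun N => ((hRel N).sub (rel_TA ν)).norm_le) hν
  intro ξ
  have hsym : ∀ N x y, ⟪A N x, y⟫_ℂ = ⟪x, A N y⟫_ℂ := by
    intro N x y
    have h1 : ∀ z, A N z = (N : ℂ) • z - ∑ k ∈ Finset.range N, lamM m (ρ k) z := by
      intro z
      have a1 : ((N : ℝ) • (1 : Lp ℂ 2 m →L[ℂ] Lp ℂ 2 m)) z = (N : ℂ) • z := by
        show (N : ℝ) • z = (N : ℂ) • z
        have := (Complex.coe_smul (N : ℝ) z)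
        rw [Complex.ofReal_natCast] at this
        exact this.symm
      have a2 : R N z = ∑ k ∈ Finset.range N, lamM m (ρ k) z := by
        show (∑ k ∈ Finset.range N, lamM m (ρ k)) z = _
        rw [_root_.sum_apply]
      show ((N : ℝ) • (1 : Lp ℂ 2 m →L[ℂ] Lp ℂ 2 m) - R N) z = _
      rw [_root_.sub_apply, a1, a2]
    rw [h1, h1, inner_sub_left, inner_sub_right, inner_smul_left, inner_smul_right, sum_inner,
      inner_sum]
    congr 1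
    · simp
    · apply Finset.sum_congr rfl
      intro k _
      exact lamM_sym (ρ k) (hρs k) x y
  have hpos : ∀ (k : ℕ) (η : Lp ℂ 2 m), 0 ≤ (⟪η, η - lamM m (ρ k) η⟫_ℂ).re := by
    intro k η
    have h1 := half_form (ρ k) η
    have h2 : 0 ≤ ∫ s, ‖lam m s η - η‖ ^ 2 ∂(ρ k) := integral_nonneg fun s => by positivity
    linarith
  have hbound : ∀ N : ℕ, 1 ≤ N → ∀ η : Lp ℂ 2 m,
      (⟪η, η - lamM m (ρ 0) η⟫_ℂ).re ≤ (⟪A N η, η⟫_ℂ).re := by
    intro N hN η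
    rw [hsym]
    have h1 : A N η = ∑ k ∈ Finset.range N, (η - lamM m (ρ k) η) := by
      have a1 : ((N : ℝ) • (1 : Lp ℂ 2 m →L[ℂ] Lp ℂ 2 m)) η = ∑ k ∈ Finset.range N, η := by
        show (N : ℝ) • η = _
        rw [Finset.sum_const, Finset.card_range]
        exact Nat.cast_smul_eq_nsmul ℝ N η
      have a2 : R N η = ∑ k ∈ Finset.range N, lamM m (ρ k) η := by
        show (∑ k ∈ Finset.range N, lamM m (ρ k)) η = _
        rw [_root_.sum_apply]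
      show ((N : ℝ) • (1 : Lp ℂ 2 m →L[ℂ] Lp ℂ 2 m) - R N) η = _
      rw [_root_.sub_apply, Finset.sum_sub_distrib, a1, a2]
    rw [h1, inner_sum, Complex.re_sum]
    exact Finset.single_le_sum (f := fun k => (⟪η, η - lamM m (ρ k) η⟫_ℂ).re)
      (fun k _ => hpos k η) (Finset.mem_range.2 hN)
  have hlim : (⟪lamM m ν ξ, lamM m ν ξ - lamM m (ρ 0) (lamM m ν ξ)⟫_ℂ).re ≤ ‖ξ‖ ^ 2 / (2 * t) := by
    have h1 : Tendsto (fun N : ℕ => NormedSpace.exp (t • (-(A N))) ξ) atTop (𝓝 (lamM m ν ξ)) :=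
      ((ContinuousLinearMap.apply ℂ (Lp ℂ 2 m) ξ).continuous.tendsto _).comp hconv
    have h2 : Continuous fun η : Lp ℂ 2 m => (⟪η, η - lamM m (ρ 0) η⟫_ℂ).re :=
      Complex.continuous_re.comp
        (continuous_id.inner (continuous_id.sub (lamM m (ρ 0)).continuous))
    refine le_of_tendsto ((h2.tendsto _).comp h1) ?_
    filter_upwards [eventually_ge_atTop 1] with N hN
    exact (hbound N hN _).trans (energy (A N) (hsym N) ht ξ)
  rw [half_form]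
  calc 2 * (⟪lamM m ν ξ, lamM m ν ξ - lamM m (ρ 0) (lamM m ν ξ)⟫_ℂ).re
      ≤ 2 * (‖ξ‖ ^ 2 / (2 * t)) := by gcongr
    _ = ‖ξ‖ ^ 2 / t := by field_simp

theorem decay {r : ℕ → Alg H} (hr : ∀ k, r k ∈ PS m) {μ : ℝ → Measure H}
    [∀ t, IsProbabilityMeasure (μ t)]
    (hν : ∀ t : ℝ, 0 < t → ∃ (ν : Measure H) (_ : IsFiniteMeasure ν), ν = μ t ∧
      Tendsto (fun N : ℕ => xx (∑ k ∈ Finset.range N, r k) N t) atTop (𝓝 (TA ν)))
    (ω : Measure H) [IsProbabilityMeasure ω] (hω : ω ≪ m) :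
    Tendsto (fun t => ‖lamM m (ω ∗ₘ μ t) - lamM m (μ t)‖) atTop (𝓝 0) := by
  obtain ⟨ρ, hρp, _, hρm, _, hρT⟩ := hr 0
  have key : ∀ t : ℝ, 0 < t → ∀ ξ : Lp ℂ 2 m,
      ∫ s, ‖lam m s (lamM m (μ t) ξ) - lamM m (μ t) ξ‖ ^ 2 ∂ρ ≤ ‖ξ‖ ^ 2 / t := by
    intro t ht ξ
    obtain ⟨ν, hνf, hνμ, hνT⟩ := hν t ht
    obtain ⟨ρ', hρ'p, _, hρ'T, h⟩ := key_a (m := m) hr ht hνT
    have e1 : ρ' = ρ := by
      apply TT_inj
      exact hρ'T.symm.trans hρT
    subst e1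
    have h2 := h ξ
    subst hνμ
    exact h2
  rw [Metric.tendsto_atTop]
  intro ε hε
  obtain ⟨C, S, hS, hSc, hSd⟩ := domin (hω.trans hρm) (show 0 < ε / 8 by positivity)
  obtain ⟨δ, hδ⟩ : ∃ δ : ℝ, δ = ε / (4 * (C + 1)) := ⟨_, rfl⟩
  have hC0 : (0 : ℝ) ≤ C := C.2
  have hδ0 : 0 < δ := by rw [hδ]; positivity
  have hCδ : C * δ ≤ ε / 4 := by
    rw [hδ, mul_div_assoc', div_le_div_iff₀ (by positivity) (by norm_num)]
    nlinarith
  refine ⟨4 * C / (δ * ε) + 1, fun t ht => ?_⟩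
  have hq : 0 ≤ 4 * C / (δ * ε) := by positivity
  have ht0 : 0 < t := by linarith
  have hCt : C / (δ * t) ≤ ε / 4 := by
    have h1 : 4 * C / (δ * ε) ≤ t := by linarith
    rw [div_le_iff₀ (by positivity)] at h1
    rw [div_le_div_iff₀ (by positivity) (by norm_num)]
    nlinarith
  rw [dist_zero_right, norm_norm]
  refine lt_of_le_of_lt ?_ (show 3 * ε / 4 < ε by linarith)
  refine ContinuousLinearMap.opNorm_le_bound _ (by positivity) fun ξ => ?_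
  rw [_root_.sub_apply, lamM_mul]
  set η := lamM m (μ t) ξ with hη
  have hηξ : ‖η‖ ≤ ‖ξ‖ := by
    have h1 := (lamM m (μ t)).le_opNorm ξ
    have h2 := lamM_norm (m := m) (μ t)
    calc ‖η‖ ≤ ‖lamM m (μ t)‖ * ‖ξ‖ := h1
      _ ≤ 1 * ‖ξ‖ := by gcongr
      _ = ‖ξ‖ := one_mul _
  by_cases hξ0 : ‖ξ‖ = 0
  · have h1 : η = 0 := by
      rw [← norm_eq_zero]
      exact le_antisymm (hηξ.trans hξ0.le) (norm_nonneg _)
    rw [h1, map_zero, sub_zero, norm_zero, hξ0, mul_zero]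
  have hξp : 0 < ‖ξ‖ := lt_of_le_of_ne (norm_nonneg _) (Ne.symm hξ0)
  set h : H → ℝ := fun s => ‖lam m s η - η‖ with hh
  have hcont : Continuous h := ((lam_cont η).sub continuous_const).norm
  have hb : ∀ s, h s ≤ 2 * ‖ξ‖ := by
    intro s
    refine (norm_sub_le _ _).trans ?_
    rw [lam_norm]
    linarith
  have hint : ∀ (τ : Measure H) [IsFiniteMeasure τ], Integrable h τ := fun τ _ =>
    Integrable.of_bound (C := 2 * ‖ξ‖) hcont.aestronglyMeasurable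
      (Eventually.of_forall fun s => by
        rw [Real.norm_eq_abs, abs_of_nonneg (norm_nonneg _)]; exact hb s)
  have hint2 : Integrable (fun s => h s ^ 2) ρ :=
    Integrable.of_bound (C := (2 * ‖ξ‖) ^ 2) (hcont.pow 2).aestronglyMeasurable
      (Eventually.of_forall fun s => by
        rw [Real.norm_eq_abs, abs_of_nonneg (by positivity)]
        exact pow_le_pow_left₀ (norm_nonneg _) (hb s) 2)
  have h1 : lamM m ω η - η = ∫ s, (lam m s η - η) ∂ω := by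
    rw [integral_sub (lam_integrable ω η) (integrable_const _)]
    simp [lamM_apply]
  have h2 : ‖lamM m ω η - η‖ ≤ ∫ s, h s ∂ω := by
    rw [h1]
    exact norm_integral_le_integral_norm _
  have h3 : ∫ s in S, h s ∂ω ≤ C * ∫ s, h s ∂ρ := by
    have h4 : ∫ s in S, h s ∂ω ≤ ∫ s, h s ∂(C • ρ) :=
      integral_mono_measure hSd (Eventually.of_forall fun s => norm_nonneg _) (hint _)
    rw [integral_smul_nnreal_measure] at h4
    exact h4
  have h5 : ∫ s in Sᶜ, h s ∂ω ≤ ε / 8 * (2 * ‖ξ‖) := by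
    have h4 : ∫ s in Sᶜ, h s ∂ω ≤ ∫ s in Sᶜ, 2 * ‖ξ‖ ∂ω :=
      setIntegral_mono_on (hint ω).integrableOn (integrable_const _) hS.compl fun s _ => hb s
    refine h4.trans ?_
    rw [setIntegral_const, smul_eq_mul]
    gcongr
  have h6 : ∫ s, h s ∂ρ ≤ δ * ‖ξ‖ + ‖ξ‖ / (δ * t) := by
    have h7 : ∀ s, h s ≤ δ * ‖ξ‖ + (δ * ‖ξ‖)⁻¹ * h s ^ 2 := by
      intro s
      have hs0 : 0 ≤ h s := norm_nonneg _
      by_cases hc : h s ≤ δ * ‖ξ‖
      · have : 0 ≤ (δ * ‖ξ‖)⁻¹ * h s ^ 2 := by positivity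
        linarith
      · push Not at hc
        have h8 : h s ≤ (δ * ‖ξ‖)⁻¹ * h s ^ 2 := by
          rw [inv_mul_eq_div, le_div_iff₀ (by positivity)]
          nlinarith
        have : 0 < δ * ‖ξ‖ := by positivity
        linarith
    have h8 : ∫ s, h s ∂ρ ≤ ∫ s, (δ * ‖ξ‖ + (δ * ‖ξ‖)⁻¹ * h s ^ 2) ∂ρ :=
      integral_mono (hint ρ) ((integrable_const _).add (hint2.const_mul _)) h7
    refine h8.trans ?_
    have h9 : ∫ s, (δ * ‖ξ‖)⁻¹ * h s ^ 2 ∂ρ = (δ * ‖ξ‖)⁻¹ * ∫ s, h s ^ 2 ∂ρ :=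
      integral_const_mul _ _
    rw [integral_add (integrable_const _) (hint2.const_mul _), h9]
    simp only [integral_const, probReal_univ, smul_eq_mul, one_mul]
    have h10 := key t ht0 ξ
    have h11 : (δ * ‖ξ‖)⁻¹ * ∫ s, h s ^ 2 ∂ρ ≤ (δ * ‖ξ‖)⁻¹ * (‖ξ‖ ^ 2 / t) := by
      gcongr
    have h12 : (δ * ‖ξ‖)⁻¹ * (‖ξ‖ ^ 2 / t) = ‖ξ‖ / (δ * t) := by
      field_simp
    linarith
  have h13 := integral_add_compl hS (hint ω)
  have h14 : C * ∫ s, h s ∂ρ ≤ C * (δ * ‖ξ‖ + ‖ξ‖ / (δ * t)) := by gcongr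
  have h15 : C * (δ * ‖ξ‖ + ‖ξ‖ / (δ * t)) = (C * δ + C / (δ * t)) * ‖ξ‖ := by ring
  have h16 : (C * δ + C / (δ * t)) * ‖ξ‖ ≤ (ε / 4 + ε / 4) * ‖ξ‖ := by gcongr
  linarith

/-- Part (a). -/
theorem part_a {M : (H →ᵇ ℝ) →ₗ[ℝ] ℝ} (hM : IsLIM M) :
    ∃ (μ : ℝ → Measure H) (_ : ∀ t, IsProbabilityMeasure (μ t)),
      μ 0 = Measure.dirac 1 ∧ (∀ s t, 0 ≤ s → 0 ≤ t → μ (s + t) = μ s ∗ₘ μ t) ∧
      (∀ f : H → ℝ, Continuous f → Tendsto f (cocompact H) (𝓝 0) →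
        Tendsto (fun t => ∫ x, f x ∂(μ t)) (𝓝[>] 0) (𝓝 (f 1))) ∧
      (∀ t, 0 < t → μ t ≪ m) ∧ (∀ t, ‖lamM m (μ t)‖ = 1) ∧
      ∀ (ω : Measure H) [IsProbabilityMeasure ω], ω ≪ m →
        Tendsto (fun t => ‖lamM m (ω ∗ₘ μ t) - lamM m (μ t)‖) atTop (𝓝 0) := by
  obtain ⟨μ, hμp, h1, h2, h3, h4, r, hr, h5⟩ := exists_semigroup' m
  exact ⟨μ, hμp, h1, h2, h3, h4, fun t => lamM_norm_one hM (μ t),
    fun ω _ hω => decay hr h5 ω hω⟩

end Pool.Agent.J6H12.SG
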