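import Pool.Agent.J6H12.SG.PosDef
import Pool.Agent.J6H12.SG.ParA

/-!
# Fell absorption and the Fourier algebra
-/

set_option autoImplicit false
set_option linter.unusedSectionVars false

open Set Filter Topology MeasureTheory
open scoped InnerProductSpace ComplexConjugate ComplexOrder

namespace Pool.Agent.J6H12.SG

variable {H : Type*} [Group H] [TopologicalSpace H] [IsTopologicalGroup H] [LocallyCompactSpace H]
  [SecondCountableTopology H] [T2Space H] [MeasurableSpace H] [BorelSpace H]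

variable {m : Measure H} [m.IsHaarMeasure]

variable (m) in
/-- sums of positive coefficients of the regular representation -/
def PA (u : H → ℂ) : Prop :=
  ∃ ζ : ℕ → Lp ℂ 2 m, ∀ s, HasSum (fun j => ⟪ζ j, lam m s (ζ j)⟫_ℂ) (u s)

variable (m) in
/-- The Fourier algebra `A(H)`, the space of the ultraweakly continuous functionals on the
von Neumann algebra of the left regular representation, as functions on `H`: the functions
`s ↦ ∑ n, ⟪λ_s ξ_n, η_n⟫` with `∑ n, ‖ξ_n‖ ‖η_n‖ < ∞`. -/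
def InA (u : H → ℂ) : Prop :=
  ∃ ξ η : ℕ → Lp ℂ 2 m, Summable (fun n => ‖ξ n‖ * ‖η n‖) ∧
    ∀ s, HasSum (fun n => ⟪η n, lam m s (ξ n)⟫_ℂ) (u s)

theorem hasSum_normsq {ζ : ℕ → Lp ℂ 2 m} {a : ℂ}
    (h : HasSum (fun j => ⟪ζ j, lam m 1 (ζ j)⟫_ℂ) a) : HasSum (fun j => ‖ζ j‖ ^ 2) a.re := by
  have h1 := Complex.hasSum_re h
  have h2 : (fun j => (⟪ζ j, lam m 1 (ζ j)⟫_ℂ).re) = fun j => ‖ζ j‖ ^ 2 := by
    funext j
    rw [lam_one]
    exact inner_self_eq_norm_sq (𝕜 := ℂ) (ζ j)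
  rwa [h2] at h1

theorem inner_lam_le (ξ η : Lp ℂ 2 m) (s : H) : ‖⟪η, lam m s ξ⟫_ℂ‖ ≤ ‖ξ‖ * ‖η‖ := by
  refine (norm_inner_le_norm _ _).trans ?_
  rw [lam_norm, mul_comm]

theorem PA.hasSum {u : ℕ → H → ℂ} {v : H → ℂ} (h : ∀ j, PA m (u j))
    (hs : ∀ s, HasSum (fun j => u j s) (v s)) : PA m v := by
  choose ζ hζ using h
  have h1 : ∀ j, HasSum (fun i => ‖ζ j i‖ ^ 2) (u j 1).re := fun j => hasSum_normsq (hζ j 1)
  have h2 : Summable fun p : ℕ × ℕ => ‖ζ p.1 p.2‖ ^ 2 := by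
    rw [summable_prod_of_nonneg (fun p => by positivity)]
    refine ⟨fun j => (h1 j).summable, ?_⟩
    have h3 : (fun j => ∑' i, ‖ζ j i‖ ^ 2) = fun j => (u j 1).re := by
      funext j
      exact (h1 j).tsum_eq
    rw [h3]
    exact (Complex.hasSum_re (hs 1)).summable
  have h3 : ∀ s, Summable fun p : ℕ × ℕ => ⟪ζ p.1 p.2, lam m s (ζ p.1 p.2)⟫_ℂ := by
    intro s
    refine Summable.of_norm_bounded h2 fun p => ?_
    rw [sq]
    exact inner_lam_le _ _ _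
  have h4 : ∀ s, HasSum (fun p : ℕ × ℕ => ⟪ζ p.1 p.2, lam m s (ζ p.1 p.2)⟫_ℂ) (v s) := by
    intro s
    have h5 := (h3 s).hasSum
    have h6 := h5.prod_fiberwise fun j => hζ j s
    rw [h6.unique (hs s)] at h5
    exact h5
  obtain ⟨e⟩ : Nonempty (ℕ ≃ ℕ × ℕ) := ⟨Nat.pairEquiv.symm⟩
  refine ⟨fun n => ζ (e n).1 (e n).2, fun s => ?_⟩
  exact (Equiv.hasSum_iff e
    (f := fun p : ℕ × ℕ => ⟪ζ p.1 p.2, lam m s (ζ p.1 p.2)⟫_ℂ)).2 (h4 s)

theorem fell1 (ξ : Lp ℂ 2 m) {B : H → ℂ} (hB : PosDef B) (hc : Continuous B) :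
    PA m fun s => ⟪ξ, lam m s ξ⟫_ℂ * B s := by
  obtain ⟨c, hcc, hcs⟩ := gns hB hc
  have hn : ∀ x, HasSum (fun i => ‖c i x‖ ^ 2) (B 1).re := by
    intro x
    have h1 := Complex.hasSum_re (hcs x x)
    rw [inv_mul_cancel] at h1
    have h2 : (fun i => (conj (c i x) * c i x).re) = fun i => ‖c i x‖ ^ 2 := by
      funext i
      rw [Complex.conj_mul', ← Complex.ofReal_pow, Complex.ofReal_re]
    rwa [h2] at h1
  have hB0 : 0 ≤ (B 1).re := (Complex.le_def.1 hB.nonneg).1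
  have hn1 : ∀ i x, ‖c i x‖ ≤ √(B 1).re := by
    intro i x
    apply Real.le_sqrt_of_sq_le
    exact le_hasSum (hn x) i fun j _ => by positivity
  have hmem : ∀ i, MemLp (fun x => c i x⁻¹ * ξ x) 2 m := by
    intro i
    refine MemLp.of_le_mul (c := √(B 1).re) (Lp.memLp ξ) ?_ (Eventually.of_forall fun x => ?_)
    · exact ((hcc i).comp continuous_inv).aestronglyMeasurable.mul (Lp.aestronglyMeasurable ξ)
    · rw [norm_mul]
      gcongr
      exact hn1 i _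
  refine ⟨fun i => (hmem i).toLp _, fun s => ?_⟩
  have hcoe := fun i => (hmem i).coeFn_toLp
  have e1 : ∀ i, ⟪(hmem i).toLp _, lam m s ((hmem i).toLp _)⟫_ℂ =
     ∫ x, (ξ (s⁻¹*x) * conj (ξ x)) * (conj (c i x⁻¹) * c i (x⁻¹ * s)) ∂m := by
    intro i
    rw [L2.inner_def]
    apply integral_congr_ae
    have h3' : ∀ᵐ x ∂m, (hmem i).toLp _ (s⁻¹ * x) = c i (s⁻¹ * x)⁻¹ * ξ (s⁻¹ * x) :=
      (measurePreserving_mul_left m s⁻¹).quasiMeasurePreserving.ae (hcoe i)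
    filter_upwards [hcoe i, lam_coe s ((hmem i).toLp _), h3'] with x h1 h2 h3
    rw [h1, h2, h3, RCLike.inner_apply, map_mul, mul_inv_rev, inv_inv]
    ring
  have e2 : ⟪ξ, lam m s ξ⟫_ℂ * B s = ∫ x, (ξ (s⁻¹*x) * conj (ξ x)) * B s ∂m := by
    rw [L2.inner_def, ← integral_mul_const]
    apply integral_congr_ae
    filter_upwards [lam_coe s ξ] with x h2
    rw [h2, RCLike.inner_apply]
  simp only [e1]
  rw [e2]
  have hsum : ∀ x, HasSum (fun i => ‖ξ (s⁻¹ * x) * conj (ξ x)‖ *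
      ((‖c i x⁻¹‖ ^ 2 + ‖c i (x⁻¹ * s)‖ ^ 2) / 2)) (‖ξ (s⁻¹ * x) * conj (ξ x)‖ * (B 1).re) := by
    intro x
    apply HasSum.mul_left
    have h1 := ((hn x⁻¹).add (hn (x⁻¹ * s))).div_const 2
    rwa [add_self_div_two] at h1
  have hξm : AEStronglyMeasurable (fun x => ξ (s⁻¹ * x)) m :=
    (Lp.aestronglyMeasurable ξ).comp_quasiMeasurePreserving
      (measurePreserving_mul_left m s⁻¹).quasiMeasurePreserving
  have hξc : AEStronglyMeasurable (fun x => conj (ξ x)) m :=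
    Complex.continuous_conj.comp_aestronglyMeasurable (Lp.aestronglyMeasurable ξ)
  refine hasSum_integral_of_dominated_convergence (fun i x => ‖ξ (s⁻¹ * x) * conj (ξ x)‖ *
    ((‖c i x⁻¹‖ ^ 2 + ‖c i (x⁻¹ * s)‖ ^ 2) / 2)) ?_ ?_ ?_ ?_ ?_
  · intro i
    refine (hξm.mul hξc).mul ?_
    have h1 : Continuous fun x => conj (c i x⁻¹) * c i (x⁻¹ * s) :=
      (Complex.continuous_conj.comp ((hcc i).comp continuous_inv)).mul
        ((hcc i).comp (continuous_inv.mul continuous_const))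
    exact h1.aestronglyMeasurable
  · intro i
    refine Eventually.of_forall fun x => ?_
    rw [norm_mul]
    gcongr
    rw [norm_mul, RCLike.norm_conj]
    nlinarith [sq_nonneg (‖c i x⁻¹‖ - ‖c i (x⁻¹ * s)‖)]
  · exact Eventually.of_forall fun x => (hsum x).summable
  · have h1 : (fun x => ∑' i, ‖ξ (s⁻¹ * x) * conj (ξ x)‖ *
        ((‖c i x⁻¹‖ ^ 2 + ‖c i (x⁻¹ * s)‖ ^ 2) / 2)) =
        fun x => ‖ξ (s⁻¹ * x) * conj (ξ x)‖ * (B 1).re := by
      funext x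
      exact (hsum x).tsum_eq
    rw [h1]
    apply Integrable.mul_const
    apply Integrable.norm
    refine (L2.integrable_inner (𝕜 := ℂ) ξ (lam m s ξ)).congr ?_
    filter_upwards [lam_coe s ξ] with x h2
    rw [h2, RCLike.inner_apply]
  · refine Eventually.of_forall fun x => ?_
    apply HasSum.mul_left
    have h1 := hcs x⁻¹ (x⁻¹ * s)
    rwa [inv_inv, mul_inv_cancel_left] at h1

/-- Fell absorption: the positive part of `A(H)` is stable under multiplication by continuous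
positive definite functions. -/
theorem PA.mul {u B : H → ℂ} (hu : PA m u) (hB : PosDef B) (hc : Continuous B) :
    PA m fun s => u s * B s := by
  obtain ⟨ζ, hζ⟩ := hu
  exact PA.hasSum (fun j => fell1 (ζ j) hB hc) fun s => (hζ s).mul_right _

theorem PA.coef (ξ : Lp ℂ 2 m) : PA m fun s => ⟪ξ, lam m s ξ⟫_ℂ := by
  have h := fell1 ξ (PosDef.one (H := H)) continuous_const
  simpa using h

theorem PA.inA {u : H → ℂ} (hu : PA m u) : InA m u := by
  obtain ⟨ζ, hζ⟩ := hu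
  refine ⟨ζ, ζ, ?_, hζ⟩
  have h := (hasSum_normsq (hζ 1)).summable
  simpa only [sq] using h

theorem PA.posDef {u : H → ℂ} (hu : PA m u) : PosDef u := by
  obtain ⟨ζ, hζ⟩ := hu
  exact PosDef.hasSum (fun j => PosDef.coef (ζ j)) hζ

theorem InA.continuous {u : H → ℂ} (hu : InA m u) : Continuous u := by
  obtain ⟨ξ, η, h1, h2⟩ := hu
  have h3 : u = fun s => ∑' n, ⟪η n, lam m s (ξ n)⟫_ℂ := by
    funext s
    exact (h2 s).tsum_eq.symm
  rw [h3]
  exact continuous_tsum (fun n => (innerSL ℂ (η n)).continuous.comp (lam_cont (ξ n))) h1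
    fun n s => inner_lam_le _ _ _

theorem InA.bounded {u : H → ℂ} (hu : InA m u) : ∃ C : ℝ, ∀ s, ‖u s‖ ≤ C := by
  obtain ⟨ξ, η, h1, h2⟩ := hu
  refine ⟨∑' n, ‖ξ n‖ * ‖η n‖, fun s => ?_⟩
  rw [← (h2 s).tsum_eq]
  exact tsum_of_norm_bounded h1.hasSum fun n => inner_lam_le _ _ _

end Pool.Agent.J6H12.SG
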