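import Pool.Agent.J6H12.SG.Amen2

/-!
# The left regular representation
-/

set_option autoImplicit false
set_option linter.unusedSectionVars false

open Set Filter Topology MeasureTheory BoundedContinuousFunction
open scoped InnerProductSpace ComplexConjugate

namespace Pool.Agent.J6H12.SG

open Pool.Agent.X196.CS

variable {H : Type*} [Group H] [TopologicalSpace H] [IsTopologicalGroup H] [LocallyCompactSpace H]
  [SecondCountableTopology H] [T2Space H] [MeasurableSpace H] [BorelSpace H]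

variable {m : Measure H} [m.IsHaarMeasure]

instance factTwo : Fact ((2 : ENNReal) ≠ ⊤) := ⟨ENNReal.ofNat_ne_top⟩

variable (m) in
/-- the left regular representation as linear isometries: `(λ_s ξ)(u) = ξ (s⁻¹ u)` -/
noncomputable def lamI (s : H) : Lp ℂ 2 m →ₗᵢ[ℂ] Lp ℂ 2 m where
  toFun f := DomMulAct.mk s⁻¹ • f
  map_add' f g := DomMulAct.smul_Lp_add _ f g
  map_smul' c f := (smul_comm c (DomMulAct.mk s⁻¹) f).symm
  norm_map' f := DomMulAct.norm_smul_Lp _ f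

variable (m) in
/-- the left regular representation: `(λ_s ξ)(u) = ξ (s⁻¹ u)` -/
noncomputable def lam (s : H) : Lp ℂ 2 m →L[ℂ] Lp ℂ 2 m := (lamI m s).toContinuousLinearMap

theorem lam_def (s : H) (f : Lp ℂ 2 m) : lam m s f = DomMulAct.mk s⁻¹ • f := rfl

theorem lam_coe (s : H) (f : Lp ℂ 2 m) : lam m s f =ᵐ[m] fun u => f (s⁻¹ * u) :=
  DomMulAct.smul_Lp_ae_eq (DomMulAct.mk s⁻¹) f

theorem lam_mul (a b : H) (f : Lp ℂ 2 m) : lam m (a * b) f = lam m a (lam m b f) := by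
  rw [lam_def, lam_def, lam_def, mul_inv_rev, DomMulAct.mk_mul, mul_smul]

theorem lam_one (f : Lp ℂ 2 m) : lam m 1 f = f := by
  rw [lam_def, inv_one, DomMulAct.mk_one, one_smul]

theorem lam_norm (s : H) (f : Lp ℂ 2 m) : ‖lam m s f‖ = ‖f‖ := (lamI m s).norm_map f

theorem lam_inner (s : H) (f g : Lp ℂ 2 m) : ⟪lam m s f, lam m s g⟫_ℂ = ⟪f, g⟫_ℂ :=
  (lamI m s).inner_map_map f g

theorem lam_inner' (s : H) (f g : Lp ℂ 2 m) : ⟪lam m s f, g⟫_ℂ = ⟪f, lam m s⁻¹ g⟫_ℂ := by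
  rw [← lam_inner s f (lam m s⁻¹ g), ← lam_mul, mul_inv_cancel, lam_one]

theorem lam_cont (f : Lp ℂ 2 m) : Continuous fun s => lam m s f := by
  have h3 : Continuous fun v : H => DomMulAct.mk v⁻¹ := (DomMulAct.continuous_mk).comp continuous_inv
  exact h3.smul continuous_const

theorem lam_integrable (μ : Measure H) [IsFiniteMeasure μ] (f : Lp ℂ 2 m) :
    Integrable (fun v => lam m v f) μ :=
  Integrable.of_bound (C := ‖f‖) (lam_cont f).aestronglyMeasurable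
    (Eventually.of_forall fun u => (lam_norm u f).le)

theorem lamM_add (μ : Measure H) [IsFiniteMeasure μ] (f g : Lp ℂ 2 m) :
    ∫ s, lam m s (f + g) ∂μ = ∫ s, lam m s f ∂μ + ∫ s, lam m s g ∂μ := by
  rw [← integral_add (lam_integrable μ f) (lam_integrable μ g)]
  simp only [map_add]

theorem lamM_smul (μ : Measure H) [IsFiniteMeasure μ] (c : ℂ) (f : Lp ℂ 2 m) :
    ∫ s, lam m s (c • f) ∂μ = c • ∫ s, lam m s f ∂μ := by
  rw [← integral_smul]
  simp only [map_smul]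

theorem lamM_bound (μ : Measure H) [IsFiniteMeasure μ] (f : Lp ℂ 2 m) :
    ‖∫ s, lam m s f ∂μ‖ ≤ μ.real univ * ‖f‖ := by
  have h1 := norm_integral_le_of_norm_le_const (μ := μ) (f := fun s => lam m s f) (C := ‖f‖)
    (Eventually.of_forall fun u => (lam_norm u f).le)
  rwa [mul_comm] at h1

variable (m) in
/-- the linear map `ξ ↦ ∫ λ_s ξ dμ(s)` -/
noncomputable def lamL (μ : Measure H) [IsFiniteMeasure μ] : Lp ℂ 2 m →ₗ[ℂ] Lp ℂ 2 m where
  toFun f := ∫ s, lam m s f ∂μ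
  map_add' := lamM_add μ
  map_smul' := lamM_smul μ

variable (m) in
/-- the operator `λ(μ) = ∫ λ_s dμ(s)` -/
noncomputable def lamM (μ : Measure H) [IsFiniteMeasure μ] : Lp ℂ 2 m →L[ℂ] Lp ℂ 2 m :=
  (lamL m μ).mkContinuous (μ.real univ) (lamM_bound μ)

theorem lamM_apply (μ : Measure H) [IsFiniteMeasure μ] (f : Lp ℂ 2 m) :
    lamM m μ f = ∫ s, lam m s f ∂μ := rfl

theorem lamM_norm (μ : Measure H) [IsProbabilityMeasure μ] : ‖lamM m μ‖ ≤ 1 := by
  refine ContinuousLinearMap.opNorm_le_bound _ zero_le_one fun f => ?_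
  rw [lamM_apply, one_mul]
  have h1 := norm_integral_le_of_norm_le_const (μ := μ) (f := fun s => lam m s f) (C := ‖f‖)
    (Eventually.of_forall fun u => (lam_norm u f).le)
  rwa [probReal_univ, mul_one] at h1

theorem lamM_inner (μ : Measure H) [IsFiniteMeasure μ] (f g : Lp ℂ 2 m) :
    ⟪g, lamM m μ f⟫_ℂ = ∫ s, ⟪g, lam m s f⟫_ℂ ∂μ := by
  rw [lamM_apply]
  exact ((innerSL ℂ g).integral_comp_comm (lam_integrable μ f)).symm

theorem lamM_sym (μ : Measure H) [IsFiniteMeasure μ] (hμ : μ.map Inv.inv = μ) (f g : Lp ℂ 2 m) :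
    ⟪lamM m μ f, g⟫_ℂ = ⟪f, lamM m μ g⟫_ℂ := by
  rw [← inner_conj_symm, lamM_inner, lamM_inner, ← integral_conj]
  simp only [inner_conj_symm]
  have h1 : ∀ s, ⟪lam m s f, g⟫_ℂ = ⟪f, lam m s⁻¹ g⟫_ℂ := fun s => lam_inner' s f g
  simp only [h1]
  conv_rhs => rw [← hμ]
  rw [integral_map measurable_inv.aemeasurable]
  exact ((innerSL ℂ f).continuous.comp (lam_cont g)).aestronglyMeasurable

theorem lamM_mul (μ ν : Measure H) [IsFiniteMeasure μ] [IsFiniteMeasure ν] (f : Lp ℂ 2 m) :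
    lamM m (μ ∗ₘ ν) f = lamM m μ (lamM m ν f) := by
  rw [lamM_apply, lamM_apply, lamM_apply]
  rw [integral_mconv (lam_integrable _ f)]
  congr 1
  funext s
  simp only [lam_mul]
  exact (lam m s).integral_comp_comm (lam_integrable ν f)

/-- the coefficient functions -/
noncomputable def FF (f g : Lp ℂ 2 m) : H →ᵇ ℝ :=
  BoundedContinuousFunction.ofNormedAddCommGroup (fun s => (⟪g, lam m s f⟫_ℂ).re)
    (Complex.continuous_re.comp ((innerSL ℂ g).continuous.comp (lam_cont f))) (‖g‖ * ‖f‖)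
    (fun s => by
      rw [Real.norm_eq_abs]
      refine (Complex.abs_re_le_norm _).trans ((norm_inner_le_norm _ _).trans ?_)
      rw [lam_norm])

theorem FF_apply (f g : Lp ℂ 2 m) (s : H) : FF f g s = (⟪g, lam m s f⟫_ℂ).re := rfl

theorem FF_norm (f g : Lp ℂ 2 m) : ‖FF f g‖ ≤ ‖g‖ * ‖f‖ := by
  rw [norm_le (by positivity)]
  intro s
  rw [FF_apply, Real.norm_eq_abs]
  refine (Complex.abs_re_le_norm _).trans ((norm_inner_le_norm _ _).trans ?_)
  rw [lam_norm]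

variable (m) in
/-- the relation between operators on functions and operators on `L²` -/
def Rel (A : Alg H) (B : Lp ℂ 2 m →L[ℂ] Lp ℂ 2 m) : Prop :=
  ∀ f g : Lp ℂ 2 m, app A (FF f g) = FF (B f) g

theorem rel_TA (μ : Measure H) [IsFiniteMeasure μ] : Rel m (TA μ) (lamM m μ) := by
  intro f g
  ext s
  rw [TA_apply, FF_apply]
  simp only [FF_apply, lam_mul]
  rw [← lam_inner s⁻¹ g, ← lam_mul, inv_mul_cancel, lam_one, lamM_inner]
  have h1 : ∀ u, ⟪g, lam m s (lam m u f)⟫_ℂ = ⟪lam m s⁻¹ g, lam m u f⟫_ℂ := by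
    intro u
    rw [← lam_inner s⁻¹ g, ← lam_mul s⁻¹ s, inv_mul_cancel, lam_one]
  simp only [h1]
  exact integral_re (((innerSL ℂ (lam m s⁻¹ g)).integrable_comp (lam_integrable μ f)))

theorem FF_add (f f' g : Lp ℂ 2 m) : FF (f + f') g = FF f g + FF f' g := by
  ext s
  show _ = FF f g s + FF f' g s
  rw [FF_apply, FF_apply, FF_apply, map_add, inner_add_right, Complex.add_re]

theorem FF_sub (f f' g : Lp ℂ 2 m) : FF (f - f') g = FF f g - FF f' g := by
  ext s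
  show _ = FF f g s - FF f' g s
  rw [FF_apply, FF_apply, FF_apply, map_sub, inner_sub_right, Complex.sub_re]

theorem FF_smul (c : ℝ) (f g : Lp ℂ 2 m) : FF (c • f) g = c • FF f g := by
  ext s
  show _ = c * FF f g s
  rw [FF_apply, FF_apply]
  have : lam m s (c • f) = (c : ℂ) • lam m s f := by
    rw [← map_smul]
    rfl
  rw [this, inner_smul_right, Complex.re_ofReal_mul]

theorem FF_zero (g : Lp ℂ 2 m) : FF 0 g = 0 := by
  ext s
  rw [FF_apply, map_zero, inner_zero_right]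
  rfl

theorem Rel.add {A A' : Alg H} {B B' : Lp ℂ 2 m →L[ℂ] Lp ℂ 2 m} (h : Rel m A B)
    (h' : Rel m A' B') : Rel m (A + A') (B + B') := by
  intro f g
  rw [app_add, h f g, h' f g, _root_.add_apply, FF_add]

theorem Rel.sub {A A' : Alg H} {B B' : Lp ℂ 2 m →L[ℂ] Lp ℂ 2 m} (h : Rel m A B)
    (h' : Rel m A' B') : Rel m (A - A') (B - B') := by
  intro f g
  rw [app_sub, h f g, h' f g, _root_.sub_apply, FF_sub]

theorem Rel.mul {A A' : Alg H} {B B' : Lp ℂ 2 m →L[ℂ] Lp ℂ 2 m} (h : Rel m A B)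
    (h' : Rel m A' B') : Rel m (A * A') (B * B') := by
  intro f g
  rw [app_mul, h' f g, h (B' f) g]
  rfl

theorem Rel.smul {A : Alg H} {B : Lp ℂ 2 m →L[ℂ] Lp ℂ 2 m} (h : Rel m A B) (c : ℝ) :
    Rel m (c • A) (c • B) := by
  intro f g
  rw [app_smul, h f g, ← FF_smul]
  rfl

theorem rel_one : Rel m (1 : Alg H) 1 := fun _ _ => rfl

theorem rel_zero : Rel m (0 : Alg H) 0 := by
  intro f g
  rw [app_zero, _root_.zero_apply, FF_zero]

theorem Rel.pow {A : Alg H} {B : Lp ℂ 2 m →L[ℂ] Lp ℂ 2 m} (h : Rel m A B) (n : ℕ) :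
    Rel m (A ^ n) (B ^ n) := by
  induction n with
  | zero => rw [pow_zero, pow_zero]; exact rel_one
  | succ n ih => rw [pow_succ, pow_succ]; exact ih.mul h

theorem Rel.sum {ι : Type*} {A : ι → Alg H} {B : ι → Lp ℂ 2 m →L[ℂ] Lp ℂ 2 m}
    (s : Finset ι) (h : ∀ i, Rel m (A i) (B i)) : Rel m (∑ i ∈ s, A i) (∑ i ∈ s, B i) := by
  classical
  induction s using Finset.induction_on with
  | empty => exact rel_zero
  | insert a s ha ih =>
    rw [Finset.sum_insert ha, Finset.sum_insert ha]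
    exact (h a).add ih

theorem Rel.norm_le {A : Alg H} {B : Lp ℂ 2 m →L[ℂ] Lp ℂ 2 m} (h : Rel m A B) : ‖B‖ ≤ ‖A‖ := by
  refine ContinuousLinearMap.opNorm_le_bound _ (norm_nonneg _) fun f => ?_
  by_cases h0 : ‖B f‖ = 0
  · rw [h0]; positivity
  · have h1 : FF (B f) (B f) 1 = ‖B f‖ * ‖B f‖ := by
      rw [FF_apply, lam_one]
      have := inner_self_eq_norm_mul_norm (𝕜 := ℂ) (B f)
      exact this
    have h2 : FF (B f) (B f) 1 ≤ ‖A‖ * (‖B f‖ * ‖f‖) := by
      rw [← h f (B f)]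
      calc app A (FF f (B f)) 1 ≤ ‖app A (FF f (B f)) 1‖ := le_abs_self _
        _ ≤ ‖app A (FF f (B f))‖ := norm_coe_le_norm _ _
        _ ≤ ‖A‖ * ‖FF f (B f)‖ := app_norm _ _
        _ ≤ ‖A‖ * (‖B f‖ * ‖f‖) := by
          gcongr
          exact FF_norm _ _
    rw [h1] at h2
    have h3 : 0 < ‖B f‖ := lt_of_le_of_ne (norm_nonneg _) (Ne.symm h0)
    have h4 : ‖B f‖ * ‖B f‖ ≤ ‖B f‖ * (‖A‖ * ‖f‖) := by linarith
    exact le_of_mul_le_mul_left h4 h3

theorem Rel.limit {A : ℕ → Alg H} {B : ℕ → Lp ℂ 2 m →L[ℂ] Lp ℂ 2 m} (h : ∀ n, Rel m (A n) (B n))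
    {A' : Alg H} {B' : Lp ℂ 2 m →L[ℂ] Lp ℂ 2 m} (hA : Tendsto A atTop (𝓝 A'))
    (hB : Tendsto B atTop (𝓝 B')) : Rel m A' B' := by
  intro f g
  refine tendsto_nhds_unique (app_tendsto hA (FF f g)) ?_
  have h1 : ∀ n, app (A n) (FF f g) = FF (B n f) g := fun n => h n f g
  simp only [h1]
  rw [tendsto_iff_norm_sub_tendsto_zero]
  have h2 := (tendsto_iff_norm_sub_tendsto_zero.1 hB).mul_const (‖g‖ * ‖f‖)
  rw [zero_mul] at h2
  refine squeeze_zero (fun _ => norm_nonneg _) (fun n => ?_) h2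
  rw [← FF_sub]
  refine (FF_norm _ _).trans ?_
  have h3 := (B n - B').le_opNorm f
  rw [_root_.sub_apply] at h3
  calc ‖g‖ * ‖B n f - B' f‖ ≤ ‖g‖ * (‖B n - B'‖ * ‖f‖) := by gcongr
    _ = _ := by ring

theorem Rel.exp {A : Alg H} {B : Lp ℂ 2 m →L[ℂ] Lp ℂ 2 m} (h : Rel m A B) :
    Rel m (NormedSpace.exp A) (NormedSpace.exp B) := by
  have h1 : HasSum (fun n : ℕ => ((n.factorial : ℝ))⁻¹ • A ^ n) (NormedSpace.exp A) :=
    NormedSpace.exp_series_hasSum_exp' (𝕂 := ℝ) A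
  have h2 : HasSum (fun n : ℕ => ((n.factorial : ℝ))⁻¹ • B ^ n) (NormedSpace.exp B) :=
    NormedSpace.exp_series_hasSum_exp' (𝕂 := ℝ) B
  exact Rel.limit (fun n => Rel.sum (Finset.range n) fun i => (h.pow i).smul _)
    h1.tendsto_sum_nat h2.tendsto_sum_nat

end Pool.Agent.J6H12.SG
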