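import Pool.Agent.J6H12.SG.Fell

/-!
# Nonnegative normalized positive elements of the Fourier algebra
-/

set_option autoImplicit false
set_option linter.unusedSectionVars false

open Set Filter Topology MeasureTheory BoundedContinuousFunction
open scoped InnerProductSpace ComplexConjugate ComplexOrder

namespace Pool.Agent.J6H12.SG

variable {H : Type*} [Group H] [TopologicalSpace H] [IsTopologicalGroup H] [LocallyCompactSpace H]
  [SecondCountableTopology H] [T2Space H] [MeasurableSpace H] [BorelSpace H]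

variable {m : Measure H} [m.IsHaarMeasure]

variable (m) in
structure Nice (p : H → ℝ) : Prop where
  pa : PA m fun s => (p s : ℂ)
  cont : Continuous p
  one : p 1 = 1
  nonneg : ∀ s, 0 ≤ p s
  le_one : ∀ s, p s ≤ 1

theorem PA.smul {u : H → ℂ} (hu : PA m u) {c : ℝ} (hc : 0 ≤ c) : PA m fun s => (c : ℂ) * u s := by
  have h1 : PosDef fun _ : H => (c : ℂ) := by simpa using (PosDef.one (H := H)).smul hc
  have h2 := hu.mul h1 continuous_const
  simpa only [mul_comm] using h2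

theorem coef_eq {ξ : Lp ℂ 2 m} {q : H → ℝ} (hξ : ξ =ᵐ[m] fun u => (q u : ℂ)) (s : H) :
    ⟪ξ, lam m s ξ⟫_ℂ = ((∫ x, q (s⁻¹ * x) * q x ∂m : ℝ) : ℂ) := by
  rw [L2.inner_def, ← integral_complex_ofReal]
  apply integral_congr_ae
  have h3 : ∀ᵐ x ∂m, ξ (s⁻¹ * x) = (q (s⁻¹ * x) : ℂ) :=
    (measurePreserving_mul_left m s⁻¹).quasiMeasurePreserving.ae hξ
  filter_upwards [hξ, lam_coe s ξ, h3] with x h4 h5 h6
  rw [h5, h6, h4, RCLike.inner_apply, Complex.conj_ofReal, Complex.ofReal_mul]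

theorem nice_of {ξ : Lp ℂ 2 m} (h1 : ‖ξ‖ = 1) {q : H → ℝ} (hq : ∀ u, 0 ≤ q u)
    (hξ : ξ =ᵐ[m] fun u => (q u : ℂ)) : Nice m fun s => ∫ x, q (s⁻¹ * x) * q x ∂m := by
  have hc := coef_eq hξ
  have hre : ∀ s, ∫ x, q (s⁻¹ * x) * q x ∂m = (⟪ξ, lam m s ξ⟫_ℂ).re := by
    intro s
    rw [hc, Complex.ofReal_re]
  constructor
  · have h2 := PA.coef ξ
    simp only [hc] at h2
    exact h2
  · simp only [hre]
    exact Complex.continuous_re.comp ((innerSL ℂ ξ).continuous.comp (lam_cont ξ))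
  · rw [hre, lam_one]
    have h2 : (⟪ξ, ξ⟫_ℂ).re = ‖ξ‖ ^ 2 := inner_self_eq_norm_sq (𝕜 := ℂ) ξ
    rw [h2, h1, one_pow]
  · intro s
    exact integral_nonneg fun x => mul_nonneg (hq _) (hq _)
  · intro s
    rw [hre]
    refine (Complex.re_le_norm _).trans ((inner_lam_le ξ ξ s).trans ?_)
    rw [h1, one_mul]

theorem nice_reiter {M : (H →ᵇ ℝ) →ₗ[ℝ] ℝ} (hM : IsLIM M) {K : Set H} (hK : IsCompact K) {ε : ℝ}
    (hε : 0 < ε) : ∃ p, Nice m p ∧ ∀ s ∈ K, 1 - p s ≤ ε := by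
  obtain ⟨ξ, h1, h2, q, hq, hξ⟩ := reiter2 (m := m) hM hK hε
  refine ⟨_, nice_of h1 hq hξ, fun s hs => ?_⟩
  have h3 : ∫ x, q (s⁻¹ * x) * q x ∂m = (⟪ξ, lam m s ξ⟫_ℂ).re := by
    rw [coef_eq hξ, Complex.ofReal_re]
  have h4 : (⟪ξ, ξ⟫_ℂ).re = 1 := by
    have h2 : (⟪ξ, ξ⟫_ℂ).re = ‖ξ‖ ^ 2 := inner_self_eq_norm_sq (𝕜 := ℂ) ξ
    rw [h2, h1, one_pow]
  rw [h3, ← h4, ← Complex.sub_re, ← inner_sub_right]
  refine (Complex.re_le_norm _).trans ((norm_inner_le_norm _ _).trans ?_)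
  rw [h1, one_mul, norm_sub_rev]
  exact h2 s hs

theorem nice_bump {V : Set H} (hV : V ∈ 𝓝 (1 : H)) : ∃ p, Nice m p ∧ ∀ s, s ∉ V → p s = 0 := by
  obtain ⟨U, hU, hUV⟩ := exists_nhds_split_inv hV
  obtain ⟨K, hK, hK1⟩ := exists_compact_mem_nhds (1 : H)
  set W := interior (U ∩ K) with hW
  have hWo : IsOpen W := isOpen_interior
  have hW1 : (1 : H) ∈ W := mem_interior_iff_mem_nhds.2 (inter_mem hU hK1)
  have hWU : W ⊆ U := interior_subset.trans inter_subset_left
  have hWK : W ⊆ K := interior_subset.trans inter_subset_right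
  have hfin : m W ≠ ⊤ := ((measure_mono hWK).trans_lt hK.measure_lt_top).ne
  have hpos : m W ≠ 0 := (hWo.measure_pos m ⟨1, hW1⟩).ne'
  have hr : 0 < m.real W := ENNReal.toReal_pos hpos hfin
  set c : ℝ := 1 / √(m.real W) with hc
  have hc2 : c ^ 2 * m.real W = 1 := by
    rw [hc, div_pow, Real.sq_sqrt hr.le, one_pow, one_div, inv_mul_cancel₀ hr.ne']
  set ξ : Lp ℂ 2 m := indicatorConstLp 2 hWo.measurableSet hfin (c : ℂ) with hξd
  have hξ : ξ =ᵐ[m] fun u => ((W.indicator (fun _ => c) u : ℝ) : ℂ) := by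
    refine indicatorConstLp_coeFn.trans (Eventually.of_forall fun u => ?_)
    by_cases hu : u ∈ W
    · simp only [indicator_of_mem hu]
    · simp only [indicator_of_notMem hu, Complex.ofReal_zero]
  have h1 : ‖ξ‖ = 1 := by
    have h2 : ‖ξ‖ ^ 2 = 1 := by
      rw [normsq]
      have h3 : ∫ u, ‖ξ u‖ ^ 2 ∂m = ∫ u, W.indicator (fun _ => c ^ 2) u ∂m := by
        apply integral_congr_ae
        filter_upwards [hξ] with u hu
        rw [hu, Complex.norm_real, Real.norm_eq_abs, sq_abs]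
        by_cases hu : u ∈ W
        · simp only [indicator_of_mem hu]
        · simp only [indicator_of_notMem hu]
          norm_num
      rw [h3, integral_indicator hWo.measurableSet, setIntegral_const, smul_eq_mul, mul_comm, hc2]
    have h4 : ‖ξ‖ = √(‖ξ‖ ^ 2) := (Real.sqrt_sq (norm_nonneg _)).symm
    rw [h4, h2, Real.sqrt_one]
  refine ⟨_, nice_of h1 (fun u => indicator_nonneg (fun _ _ => by positivity) u) hξ,
    fun s hs => ?_⟩
  rw [← integral_zero H ℝ (μ := m)]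
  congr 1
  funext x
  by_cases h2 : s⁻¹ * x ∈ W
  · by_cases h3 : x ∈ W
    · exfalso
      apply hs
      have := hUV x (hWU h3) (s⁻¹ * x) (hWU h2)
      rwa [div_eq_mul_inv, mul_inv_rev, inv_inv, mul_inv_cancel_left] at this
    · rw [indicator_of_notMem h3, mul_zero]
  · rw [indicator_of_notMem h2, zero_mul]

theorem geo_half : HasSum (fun n : ℕ => (1 / 2 : ℝ) ^ (n + 1)) 1 := by
  have h := (hasSum_geometric_two).mul_left (1 / 2 : ℝ)
  have h1 : (1 / 2 : ℝ) * 2 = 1 := by norm_num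
  rw [h1] at h
  simpa only [pow_succ'] using h

theorem nice_avg {p : ℕ → H → ℝ} (hp : ∀ n, Nice m (p n)) :
    Nice m fun s => ∑' n : ℕ, (1 / 2 : ℝ) ^ (n + 1) * p n s := by
  have hb : ∀ n s, ‖(1 / 2 : ℝ) ^ (n + 1) * p n s‖ ≤ (1 / 2 : ℝ) ^ (n + 1) := by
    intro n s
    rw [norm_mul, Real.norm_eq_abs, Real.norm_eq_abs, abs_of_nonneg ((hp n).nonneg s),
      abs_of_nonneg (by positivity)]
    exact mul_le_of_le_one_right (by positivity) ((hp n).le_one s)
  have hs : ∀ s, Summable fun n : ℕ => (1 / 2 : ℝ) ^ (n + 1) * p n s := fun s =>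
    Summable.of_norm_bounded geo_half.summable fun n => hb n s
  constructor
  · refine PA.hasSum (fun n => (hp n).pa.smul (c := (1 / 2 : ℝ) ^ (n + 1)) (by positivity)) ?_
    intro s
    have h1 := (Complex.hasSum_ofReal (f := fun n : ℕ => (1 / 2 : ℝ) ^ (n + 1) * p n s)).2 (hs s).hasSum
    simpa only [Complex.ofReal_mul] using h1
  · exact continuous_tsum (fun n => continuous_const.mul (hp n).cont) geo_half.summable hb
  · simp only [(hp _).one, mul_one]
    exact geo_half.tsum_eq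
  · intro s
    exact tsum_nonneg fun n => mul_nonneg (by positivity) ((hp n).nonneg s)
  · intro s
    refine hasSum_le (fun n => ?_) (hs s).hasSum geo_half
    exact mul_le_of_le_one_right (by positivity) ((hp n).le_one s)

theorem nice_chi : ∃ χ, Nice m χ ∧ ∀ V ∈ 𝓝 (1 : H), ∃ δ > 0, ∀ s, s ∉ V → χ s ≤ 1 - δ := by
  obtain ⟨V, hV⟩ := (𝓝 (1 : H)).exists_antitone_basis
  choose p hp hpV using fun n => nice_bump (m := m) (hV.1.mem_of_mem (i := n) trivial)
  refine ⟨_, nice_avg hp, fun U hU => ?_⟩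
  obtain ⟨n, -, hn⟩ := hV.1.mem_iff.1 hU
  refine ⟨(1 / 2 : ℝ) ^ (n + 1), by positivity, fun s hs => ?_⟩
  have h1 : ∀ k, (1 / 2 : ℝ) ^ (k + 1) * p k s ≤
      (1 / 2 : ℝ) ^ (k + 1) - (if k = n then (1 / 2 : ℝ) ^ (n + 1) else 0) := by
    intro k
    split_ifs with hk
    · subst hk
      rw [hpV k s fun h => hs (hn h), mul_zero, sub_self]
    · rw [sub_zero]
      exact mul_le_of_le_one_right (by positivity) ((hp k).le_one s)
  have h2 : HasSum (fun k : ℕ => (1 / 2 : ℝ) ^ (k + 1) -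
      (if k = n then (1 / 2 : ℝ) ^ (n + 1) else 0)) (1 - (1 / 2 : ℝ) ^ (n + 1)) :=
    geo_half.sub (hasSum_ite_eq n _)
  rw [← h2.tsum_eq]
  refine Summable.tsum_le_tsum h1 ?_ h2.summable
  refine Summable.of_nonneg_of_le (fun k => mul_nonneg (by positivity) ((hp k).nonneg s))
    (fun k => ?_) geo_half.summable
  exact mul_le_of_le_one_right (by positivity) ((hp k).le_one s)

end Pool.Agent.J6H12.SG
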