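import Pool.Agent.J6H12.SG.Nice

/-!
# Part (b)
-/

set_option autoImplicit false
set_option linter.unusedSectionVars false

open Set Filter Topology MeasureTheory BoundedContinuousFunction
open scoped InnerProductSpace ComplexConjugate ComplexOrder

namespace Pool.Agent.J6H12.SG

variable {H : Type*} [Group H] [TopologicalSpace H] [IsTopologicalGroup H] [LocallyCompactSpace H]
  [SecondCountableTopology H] [T2Space H] [MeasurableSpace H] [BorelSpace H]

variable {m : Measure H} [m.IsHaarMeasure]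

theorem exp_hasSum (x : ℝ) : HasSum (fun n : ℕ => x ^ n / (n.factorial : ℝ)) (Real.exp x) := by
  rw [Real.exp_eq_exp_ℝ]
  exact NormedSpace.expSeries_div_hasSum_exp x

/-- `(e^{tx} - 1) / x` -/
noncomputable def kap (t x : ℝ) : ℝ := ∑' j : ℕ, t ^ (j + 1) / ((j + 1).factorial : ℝ) * x ^ j

theorem kap_summable_bound (t : ℝ) : Summable fun j : ℕ => t ^ (j + 1) / ((j + 1).factorial : ℝ) :=
  (summable_nat_add_iff 1).2 (exp_hasSum t).summable

theorem kap_bound {t : ℝ} (ht : 0 ≤ t) {x : ℝ} (h0 : 0 ≤ x) (h1 : x ≤ 1) (j : ℕ) :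
    ‖t ^ (j + 1) / ((j + 1).factorial : ℝ) * x ^ j‖ ≤ t ^ (j + 1) / ((j + 1).factorial : ℝ) := by
  rw [Real.norm_eq_abs, abs_of_nonneg (by positivity)]
  exact mul_le_of_le_one_right (by positivity) (pow_le_one₀ h0 h1)

theorem kap_hasSum {t : ℝ} (ht : 0 ≤ t) {x : ℝ} (h0 : 0 ≤ x) (h1 : x ≤ 1) :
    HasSum (fun j : ℕ => t ^ (j + 1) / ((j + 1).factorial : ℝ) * x ^ j) (kap t x) :=
  (Summable.of_norm_bounded (kap_summable_bound t) fun j => kap_bound ht h0 h1 j).hasSum

theorem kap_eq {t : ℝ} (ht : 0 ≤ t) {x : ℝ} (h0 : 0 ≤ x) (h1 : x ≤ 1) :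
    x * kap t x = Real.exp (t * x) - 1 := by
  have h2 := (kap_hasSum ht h0 h1).mul_left x
  have h3 := (hasSum_nat_add_iff' 1).2 (exp_hasSum (t * x))
  rw [Finset.sum_range_one, pow_zero, Nat.factorial_zero, Nat.cast_one, div_one] at h3
  refine h2.unique ?_
  have h4 : (fun j : ℕ => x * (t ^ (j + 1) / ((j + 1).factorial : ℝ) * x ^ j)) =
      fun j : ℕ => (t * x) ^ (j + 1) / ((j + 1).factorial : ℝ) := by
    funext j
    rw [mul_pow, pow_succ x]
    ring
  rw [h4]
  exact h3

theorem posDef_kap {p : H → ℝ} (hp : Nice m p) {t : ℝ} (ht : 0 ≤ t) :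
    PosDef fun s => (kap t (p s) : ℂ) := by
  refine PosDef.hasSum (φ := fun j s => ((t ^ (j + 1) / ((j + 1).factorial : ℝ) : ℝ) : ℂ) * (p s : ℂ) ^ j)
    (fun j => (hp.pa.posDef.pow j).smul (by positivity)) fun s => ?_
  have h1 := (Complex.hasSum_ofReal
    (f := fun j : ℕ => t ^ (j + 1) / ((j + 1).factorial : ℝ) * p s ^ j)).2
    (kap_hasSum ht (hp.nonneg s) (hp.le_one s))
  simpa only [Complex.ofReal_mul, Complex.ofReal_pow] using h1

theorem cont_kap {p : H → ℝ} (hp : Nice m p) {t : ℝ} (ht : 0 ≤ t) :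
    Continuous fun s => kap t (p s) :=
  continuous_tsum (fun j => continuous_const.mul (hp.cont.pow j)) (kap_summable_bound t)
    fun j s => kap_bound ht (hp.nonneg s) (hp.le_one s) j

theorem posDef_exp {p : H → ℝ} (hp : PosDef fun s => (p s : ℂ)) {t : ℝ} (ht : 0 ≤ t) :
    PosDef fun s => (Real.exp (-t * (1 - p s)) : ℂ) := by
  have h1 : PosDef fun s => (Real.exp (t * p s) : ℂ) := by
    refine PosDef.hasSum (φ := fun j s => ((t ^ j / (j.factorial : ℝ) : ℝ) : ℂ) * (p s : ℂ) ^ j)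
      (fun j => (hp.pow j).smul (by positivity)) fun s => ?_
    have h1 := (Complex.hasSum_ofReal
      (f := fun j : ℕ => (t * p s) ^ j / (j.factorial : ℝ))).2 (exp_hasSum (t * p s))
    have h2 : (fun j : ℕ => (((t * p s) ^ j / (j.factorial : ℝ) : ℝ) : ℂ)) =
        fun j : ℕ => ((t ^ j / (j.factorial : ℝ) : ℝ) : ℂ) * (p s : ℂ) ^ j := by
      funext j
      rw [← Complex.ofReal_pow, ← Complex.ofReal_mul, mul_pow]
      congr 1
      ring
    rwa [h2] at h1
  have h2 := h1.smul (Real.exp_pos (-t)).le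
  have h3 : (fun s => (Real.exp (-t) : ℂ) * (Real.exp (t * p s) : ℂ)) =
      fun s => (Real.exp (-t * (1 - p s)) : ℂ) := by
    funext s
    rw [← Complex.ofReal_mul, ← Real.exp_add]
    congr 2
    ring
  rwa [h3] at h2

/-! ### products -/

/-- locally uniform summability of `1 - f n` -/
def LUS (f : ℕ → H → ℝ) : Prop :=
  ∀ K : Set H, IsCompact K → ∃ u : ℕ → ℝ, Summable u ∧ ∀ n, ∀ s ∈ K, 1 - f n s ≤ u n

/-- the exponent -/
noncomputable def psi (f : ℕ → H → ℝ) (s : H) : ℝ := ∑' n, (1 - f n s)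

/-- the function `e^{-t ψ}` -/
noncomputable def ex (t : ℝ) (f : ℕ → H → ℝ) (s : H) : ℝ := Real.exp (-t * psi f s)

theorem ex_pos (t : ℝ) (f : ℕ → H → ℝ) (s : H) : 0 < ex t f s := Real.exp_pos _

section

variable {f : ℕ → H → ℝ} (hf : ∀ n, Nice m (f n)) (hl : LUS f)

include hf hl

theorem nrm (K : Set H) (hK : IsCompact K) : ∃ u : ℕ → ℝ, Summable u ∧
    ∀ n, ∀ s ∈ K, ‖1 - f n s‖ ≤ u n := by
  obtain ⟨u, hu, h⟩ := hl K hK
  refine ⟨u, hu, fun n s hs => ?_⟩
  rw [Real.norm_eq_abs, abs_of_nonneg (by linarith [(hf n).le_one s])]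
  exact h n s hs

theorem summ (s : H) : Summable fun n => 1 - f n s := by
  obtain ⟨u, hu, h⟩ := nrm hf hl {s} isCompact_singleton
  exact Summable.of_norm_bounded hu fun n => h n s rfl

theorem psi_cont : Continuous (psi f) := by
  rw [continuous_iff_continuousAt]
  intro s
  obtain ⟨K, hK, hKs⟩ := exists_compact_mem_nhds s
  obtain ⟨u, hu, h⟩ := nrm hf hl K hK
  have h1 : ContinuousOn (psi f) K :=
    continuousOn_tsum (fun n => (continuous_const.sub (hf n).cont).continuousOn) hu h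
  exact h1.continuousAt hKs

theorem psi_nonneg (s : H) : 0 ≤ psi f s :=
  tsum_nonneg fun n => by linarith [(hf n).le_one s]

theorem psi_one : psi f 1 = 0 := by
  unfold psi
  simp only [(hf _).one, sub_self, tsum_zero]

theorem psi_ge (n : ℕ) (s : H) : 1 - f n s ≤ psi f s :=
  (summ hf hl s).le_tsum n fun j _ => by linarith [(hf j).le_one s]

theorem ex_cont (t : ℝ) : Continuous (ex t f) :=
  Real.continuous_exp.comp (continuous_const.mul (psi_cont hf hl))

theorem ex_posDef {t : ℝ} (ht : 0 ≤ t) : PosDef fun s => (ex t f s : ℂ) := by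
  refine PosDef.limit (l := atTop) (φ := fun (N : ℕ) s => ∏ n ∈ Finset.range N,
    (Real.exp (-t * (1 - f n s)) : ℂ)) (fun N => PosDef.finprod
      (fun n => posDef_exp (hf n).pa.posDef ht) _) fun s => ?_
  have h1 := (summ hf hl s).hasSum.tendsto_sum_nat
  have h2 : Continuous fun x : ℝ => (Real.exp (-t * x) : ℂ) :=
    Complex.continuous_ofReal.comp (Real.continuous_exp.comp (continuous_const.mul continuous_id))
  have h3 := (h2.tendsto _).comp h1
  refine h3.congr fun N => ?_
  simp only [Function.comp_apply]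
  rw [Finset.mul_sum, Real.exp_sum, Complex.ofReal_prod]

theorem ex_le_one {t : ℝ} (ht : 0 ≤ t) (s : H) : ex t f s ≤ 1 := by
  unfold ex
  rw [Real.exp_le_one_iff]
  nlinarith [psi_nonneg hf hl s]

end

theorem ex_uniform {f : ℕ → H → ℝ} (hf : ∀ n, Nice m (f n)) (hl : LUS f) {K : Set H}
    (hK : IsCompact K) :
    TendstoUniformlyOn (fun t s => (ex t f s : ℂ)) (fun _ => 1) (𝓝[>] 0) K := by
  rw [Metric.tendstoUniformlyOn_iff]
  intro ε hε
  obtain ⟨C, hC⟩ := hK.exists_bound_of_continuousOn (psi_cont hf hl).continuousOn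
  have h1 : Continuous fun t : ℝ => Real.exp (-t * C) :=
    Real.continuous_exp.comp (continuous_neg.mul continuous_const)
  have h2 : Tendsto (fun t : ℝ => Real.exp (-t * C)) (𝓝[>] 0) (𝓝 1) := by
    have h3 := (h1.tendsto 0).mono_left (nhdsWithin_le_nhds (s := Ioi 0))
    rwa [neg_zero, zero_mul, Real.exp_zero] at h3
  filter_upwards [h2.eventually (lt_mem_nhds (show 1 - ε < 1 by linarith)),
    self_mem_nhdsWithin] with t ht ht0 s hs
  have ht0' : (0 : ℝ) < t := ht0
  have h3 : Real.exp (-t * C) ≤ ex t f s := by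
    unfold ex
    apply Real.exp_le_exp.2
    have := (le_abs_self _).trans (hC s hs)
    nlinarith
  have h4 := ex_le_one hf hl ht0'.le s
  rw [dist_eq_norm, ← Complex.ofReal_one, ← Complex.ofReal_sub, Complex.norm_real,
    Real.norm_eq_abs, abs_of_nonneg (by linarith)]
  linarith

theorem LUS.shift {f : ℕ → H → ℝ} (hl : LUS f) (N : ℕ) : LUS fun n => f (n + N) := by
  intro K hK
  obtain ⟨u, hu, h⟩ := hl K hK
  exact ⟨fun n => u (n + N), (summable_nat_add_iff N).2 hu, fun n s hs => h _ s hs⟩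

/-- the first jump decomposition: `e^{-tψ}` is in the Fourier algebra -/
theorem ex_PA {f : ℕ → H → ℝ} (hf : ∀ n, Nice m (f n)) (hl : LUS f) {t : ℝ} (ht : 0 < t) :
    PA m fun s => (ex t f s : ℂ) := by
  -- the tails
  have hfN : ∀ N, ∀ n, Nice m ((fun n => f (n + N)) n) := fun N n => hf _
  let S : ℕ → H → ℝ := fun N s => Real.exp (-t * N) * ex t (fun n => f (n + N)) s
  let B : ℕ → H → ℝ := fun N s => Real.exp (-t * (N + 1)) *
    (kap t (f N s) * ex t (fun n => f (n + (N + 1))) s)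
  have hstep : ∀ N s, S N s - S (N + 1) s = f N s * B N s := by
    intro N s
    have h1 : psi (fun n => f (n + N)) s = (1 - f N s) + psi (fun n => f (n + (N + 1))) s := by
      unfold psi
      rw [(summ (hfN N) (hl.shift N) s).tsum_eq_zero_add]
      congr 1
      · simp only [zero_add]
      · apply tsum_congr
        intro n
        rw [show n + 1 + N = n + (N + 1) by ring]
    have h2 := kap_eq ht.le ((hf N).nonneg s) ((hf N).le_one s)
    have h3 : ex t (fun n => f (n + N)) s = Real.exp (-t) * Real.exp (t * f N s) *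
        ex t (fun n => f (n + (N + 1))) s := by
      unfold ex
      rw [h1, ← Real.exp_add, ← Real.exp_add]
      congr 1
      ring
    have h4 : Real.exp (-t * (N + 1)) = Real.exp (-t * N) * Real.exp (-t) := by
      rw [← Real.exp_add]
      congr 1
      ring
    show Real.exp (-t * N) * ex t (fun n => f (n + N)) s -
      Real.exp (-t * ((N + 1 : ℕ) : ℝ)) * ex t (fun n => f (n + (N + 1))) s =
      f N s * (Real.exp (-t * (N + 1)) * (kap t (f N s) * ex t (fun n => f (n + (N + 1))) s))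
    rw [Nat.cast_add, Nat.cast_one, h3, h4]
    have h5 : f N s * (Real.exp (-t * N) * Real.exp (-t) * (kap t (f N s) *
        ex t (fun n => f (n + (N + 1))) s)) = Real.exp (-t * N) * Real.exp (-t) *
        (f N s * kap t (f N s)) * ex t (fun n => f (n + (N + 1))) s := by ring
    rw [h5, h2]
    ring
  have hS0 : ∀ s, S 0 s = ex t f s := by
    intro s
    show Real.exp (-t * ((0 : ℕ) : ℝ)) * ex t (fun n => f (n + 0)) s = _
    rw [Nat.cast_zero, mul_zero, Real.exp_zero, one_mul]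
    rfl
  have hSlim : ∀ s, Tendsto (fun N => S N s) atTop (𝓝 0) := by
    intro s
    have h1 : Tendsto (fun N : ℕ => Real.exp (-t * N)) atTop (𝓝 0) := by
      refine Real.tendsto_exp_atBot.comp ?_
      exact Tendsto.const_mul_atTop_of_neg (by linarith) tendsto_natCast_atTop_atTop
    refine squeeze_zero (fun N => by simp only [S, ex]; positivity) (fun N => ?_) h1
    exact mul_le_of_le_one_right (Real.exp_pos _).le (ex_le_one (hfN N) (hl.shift N) ht.le s)
  have hB0 : ∀ N s, 0 ≤ f N s * B N s := by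
    intro N s
    refine mul_nonneg ((hf N).nonneg s) ?_
    have h1 : 0 ≤ kap t (f N s) := tsum_nonneg fun j => by
      have := (hf N).nonneg s
      positivity
    simp only [B, ex]
    positivity
  have hsum : ∀ s, HasSum (fun N => f N s * B N s) (ex t f s) := by
    intro s
    rw [hasSum_iff_tendsto_nat_of_nonneg (fun N => hB0 N s)]
    have h1 : ∀ N, ∑ i ∈ Finset.range N, f i s * B i s = S 0 s - S N s := by
      intro N
      rw [← Finset.sum_range_sub' (fun i => S i s)]
      exact Finset.sum_congr rfl fun i _ => (hstep i s).symm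
    simp only [h1]
    have h2 := (hSlim s).const_sub (S 0 s)
    rw [sub_zero] at h2
    rw [← hS0 s]
    exact h2
  refine PA.hasSum (u := fun N s => ((f N s : ℝ) : ℂ) * (B N s : ℂ)) (fun N => ?_) fun s => ?_
  · refine (hf N).pa.mul ?_ ?_
    · have h1 := (posDef_kap (hf N) ht.le).mul (ex_posDef (hfN (N + 1)) (hl.shift (N + 1)) ht.le)
      have h2 := h1.smul (Real.exp_pos (-t * (N + 1))).le
      simpa only [B, Complex.ofReal_mul] using h2
    · exact Complex.continuous_ofReal.comp (continuous_const.mul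
        ((cont_kap (hf N) ht.le).mul (ex_cont (hfN (N + 1)) (hl.shift (N + 1)) t)))
  · have h1 := (Complex.hasSum_ofReal (f := fun N : ℕ => f N s * B N s)).2 (hsum s)
    simpa only [Complex.ofReal_mul] using h1

/-- the sequence of functions -/
theorem exists_seq {M : (H →ᵇ ℝ) →ₗ[ℝ] ℝ} (hM : IsLIM M) : ∃ f : ℕ → H → ℝ,
    (∀ n, Nice m (f n)) ∧ LUS f ∧
      ∀ V ∈ 𝓝 (1 : H), ∃ δ > 0, ∀ s, s ∉ V → f 0 s ≤ 1 - δ := by
  obtain ⟨χ, hχ, hχV⟩ := nice_chi (m := m)
  let K : CompactExhaustion H := default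
  choose p hp hpK using fun n : ℕ => nice_reiter (m := m) hM (K.isCompact n)
    (show (0 : ℝ) < (1 / 2) ^ n by positivity)
  let f : ℕ → H → ℝ := fun n => Nat.casesOn n χ p
  have hf : ∀ n, Nice m (f n) := by
    intro n
    cases n with
    | zero => exact hχ
    | succ n => exact hp n
  refine ⟨f, hf, ?_, hχV⟩
  intro C hC
  obtain ⟨N, hN⟩ := K.exists_superset_of_isCompact hC
  refine ⟨fun n => 2 ^ (N + 1) * (1 / 2 : ℝ) ^ n, summable_geometric_two.mul_left _, ?_⟩
  intro n s hs
  by_cases hn : n ≤ N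
  · have h1 : 1 - f n s ≤ 1 := by linarith [(hf n).nonneg s]
    refine h1.trans ?_
    show (1 : ℝ) ≤ 2 ^ (N + 1) * (1 / 2 : ℝ) ^ n
    rw [one_div, inv_pow, ← div_eq_mul_inv, le_div_iff₀ (by positivity), one_mul]
    exact pow_le_pow_right₀ (by norm_num) (by omega)
  · obtain ⟨k, rfl⟩ : ∃ k, n = k + 1 := ⟨n - 1, by omega⟩
    have h1 : s ∈ K k := K.subset (by omega : N ≤ k) (hN hs)
    have h2 : 1 - f (k + 1) s ≤ (1 / 2) ^ k := hpK k s h1
    refine h2.trans ?_
    show (1 / 2 : ℝ) ^ k ≤ 2 ^ (N + 1) * (1 / 2 : ℝ) ^ (k + 1)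
    rw [pow_succ (1 / 2 : ℝ) k]
    have h3 : (1 : ℝ) ≤ 2 ^ N := one_le_pow₀ (by norm_num)
    have h4 : (0 : ℝ) ≤ (1 / 2) ^ k := by positivity
    rw [pow_succ]
    nlinarith

/-- Part (b). -/
theorem part_b {M : (H →ᵇ ℝ) →ₗ[ℝ] ℝ} (hM : IsLIM M) : ∃ φ : ℝ → H → ℂ,
    (∀ t, 0 ≤ t → Continuous (φ t) ∧ PosDef (φ t) ∧ φ t 1 = 1) ∧
    (∀ s t, 0 ≤ s → 0 ≤ t → ∀ g, φ (s + t) g = φ s g * φ t g) ∧ (∀ g, φ 0 g = 1) ∧
    (∀ h : H → ℂ, Integrable h m →
      Tendsto (fun t => ∫ g, h g * φ t g ∂m) (𝓝[>] 0) (𝓝 (∫ g, h g ∂m))) ∧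
    (∀ K : Set H, IsCompact K → TendstoUniformlyOn φ (fun _ => 1) (𝓝[>] 0) K) ∧
    (∀ t, 0 < t → InA m (φ t)) ∧
    ∀ ω : H → ℂ, PosDef ω → InA m ω → ω 1 = 1 →
      TendstoUniformly (fun t g => ω g * φ t g - φ t g) 0 atTop := by
  obtain ⟨f, hf, hl, hV⟩ := exists_seq (m := m) hM
  refine ⟨fun t s => (ex t f s : ℂ), fun t ht => ⟨?_, ex_posDef hf hl ht, ?_⟩, ?_, ?_, ?_,
    fun K hK => ex_uniform hf hl hK, ?_, ?_⟩
  · exact Complex.continuous_ofReal.comp (ex_cont hf hl t)
  · show ((ex t f 1 : ℝ) : ℂ) = 1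
    unfold ex
    rw [psi_one hf hl, mul_zero, Real.exp_zero, Complex.ofReal_one]
  · intro s t _ _ g
    show ((ex (s + t) f g : ℝ) : ℂ) = (ex s f g : ℂ) * (ex t f g : ℂ)
    rw [← Complex.ofReal_mul]
    unfold ex
    rw [← Real.exp_add]
    congr 2
    ring
  · intro g
    show ((ex 0 f g : ℝ) : ℂ) = 1
    unfold ex
    rw [neg_zero, zero_mul, Real.exp_zero, Complex.ofReal_one]
  · intro h hh
    refine tendsto_integral_filter_of_dominated_convergence (fun g => ‖h g‖) ?_ ?_ hh.norm ?_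
    · exact Eventually.of_forall fun t => hh.aestronglyMeasurable.mul
        (Complex.continuous_ofReal.comp (ex_cont hf hl t)).aestronglyMeasurable
    · filter_upwards [self_mem_nhdsWithin] with t ht
      refine Eventually.of_forall fun g => ?_
      rw [norm_mul, Complex.norm_real, Real.norm_eq_abs, abs_of_nonneg (ex_pos t f g).le]
      exact mul_le_of_le_one_right (norm_nonneg _) (ex_le_one hf hl (le_of_lt ht) g)
    · refine Eventually.of_forall fun g => ?_
      have h1 : Continuous fun t : ℝ => h g * (ex t f g : ℂ) := by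
        unfold ex
        exact continuous_const.mul (Complex.continuous_ofReal.comp
          (Real.continuous_exp.comp (continuous_neg.mul continuous_const)))
      have h2 := (h1.tendsto 0).mono_left (nhdsWithin_le_nhds (s := Ioi 0))
      have h3 : h g * (ex 0 f g : ℂ) = h g := by
        unfold ex
        rw [neg_zero, zero_mul, Real.exp_zero, Complex.ofReal_one, mul_one]
      rwa [h3] at h2
  · intro t ht
    exact (ex_PA hf hl ht).inA
  · intro ω _ hω hω1
    rw [Metric.tendstoUniformly_iff]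
    intro ε hε
    obtain ⟨C, hC⟩ := hω.bounded
    have hC0 : 0 ≤ C := (norm_nonneg _).trans (hC 1)
    have hVn : {g : H | ‖ω g - 1‖ < ε / 2} ∈ 𝓝 (1 : H) := by
      have h1 : Continuous fun g => ‖ω g - 1‖ := (hω.continuous.sub continuous_const).norm
      refine (h1.tendsto 1).eventually (gt_mem_nhds ?_)
      rw [hω1, sub_self, norm_zero]
      positivity
    obtain ⟨δ, hδ, hδV⟩ := hV _ hVn
    have hlim : Tendsto (fun t : ℝ => (C + 1) * Real.exp (-t * δ)) atTop (𝓝 0) := by
      have h1 : Tendsto (fun t : ℝ => Real.exp (-t * δ)) atTop (𝓝 0) := by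
        refine Real.tendsto_exp_atBot.comp ?_
        exact (tendsto_neg_atTop_atBot).atBot_mul_const hδ
      have h2 := h1.const_mul (C + 1)
      rwa [mul_zero] at h2
    filter_upwards [hlim.eventually (gt_mem_nhds (show 0 < ε / 2 by positivity)),
      eventually_ge_atTop 0] with t ht1 ht0 g
    rw [Pi.zero_apply, dist_zero_left]
    have e1 : ω g * (ex t f g : ℂ) - (ex t f g : ℂ) = (ω g - 1) * (ex t f g : ℂ) := by ring
    rw [e1, norm_mul, Complex.norm_real, Real.norm_eq_abs, abs_of_nonneg (ex_pos t f g).le]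
    by_cases hg : ‖ω g - 1‖ < ε / 2
    · calc ‖ω g - 1‖ * ex t f g ≤ ‖ω g - 1‖ * 1 := by
            gcongr
            exact ex_le_one hf hl ht0 g
        _ < ε := by linarith
    · have h1 : f 0 g ≤ 1 - δ := hδV g hg
      have h2 := psi_ge hf hl 0 g
      have h3 : ex t f g ≤ Real.exp (-t * δ) := by
        unfold ex
        apply Real.exp_le_exp.2
        nlinarith
      have h4 : ‖ω g - 1‖ ≤ C + 1 := by
        refine (norm_sub_le _ _).trans ?_
        rw [norm_one]
        linarith [hC g]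
      calc ‖ω g - 1‖ * ex t f g ≤ (C + 1) * Real.exp (-t * δ) := by
            gcongr
            exact (ex_pos t f g).le
        _ < ε := by linarith

end Pool.Agent.J6H12.SG
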