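import Pool.Agent.J6H12.SG.Lam

/-!
# Positive definite functions
-/

set_option autoImplicit false
set_option linter.unusedSectionVars false

open Set Filter Topology MeasureTheory
open scoped InnerProductSpace ComplexConjugate ComplexOrder

namespace Pool.Agent.J6H12.SG

section alg

variable {H : Type*} [Group H]

/-- positive definite functions on a group -/
def PosDef (φ : H → ℂ) : Prop := (Matrix.of fun x y : H => φ (x⁻¹ * y)).PosSemidef

theorem PosDef.add {φ ψ : H → ℂ} (h : PosDef φ) (h' : PosDef ψ) : PosDef fun s => φ s + ψ s := by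
  have := Matrix.PosSemidef.add h h'
  exact this

theorem PosDef.mul {φ ψ : H → ℂ} (h : PosDef φ) (h' : PosDef ψ) : PosDef fun s => φ s * ψ s := by
  have := Matrix.PosSemidef.hadamard h h'
  exact this

theorem PosDef.smul {φ : H → ℂ} (h : PosDef φ) {c : ℝ} (hc : 0 ≤ c) :
    PosDef fun s => (c : ℂ) * φ s := by
  have := Matrix.PosSemidef.smul h hc
  convert! this using 1

theorem PosDef.zero : PosDef fun _ : H => (0 : ℂ) := by
  have := Matrix.PosSemidef.zero (n := H) (R := ℂ)
  exact this

theorem gram_posSemidef {X E : Type*} [NormedAddCommGroup E] [InnerProductSpace ℂ E] (v : X → E) :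
    (Matrix.of fun x y : X => ⟪v x, v y⟫_ℂ).PosSemidef := by
  refine ⟨?_, fun c => ?_⟩
  · ext x y
    rw [Matrix.conjTranspose_apply, Matrix.of_apply, Matrix.of_apply]
    exact inner_conj_symm _ _
  · have h1 : (c.sum fun i xi ↦ c.sum fun j xj ↦ star xi * (Matrix.of fun x y : X => ⟪v x, v y⟫_ℂ) i j * xj)
        = ⟪c.sum fun i xi => xi • v i, c.sum fun i xi => xi • v i⟫_ℂ := by
      simp only [Finsupp.sum, sum_inner]
      apply Finset.sum_congr rfl
      intro i _
      rw [inner_sum]
      apply Finset.sum_congr rfl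
      intro j _
      rw [inner_smul_left, inner_smul_right, Matrix.of_apply, RCLike.star_def]
      ring
    rw [h1, inner_self_eq_norm_sq_to_K]
    norm_cast
    positivity

theorem PosDef.one : PosDef fun _ : H => (1 : ℂ) := by
  have h := gram_posSemidef (X := H) fun _ => (1 : ℂ)
  unfold PosDef
  convert! h using 1
  ext x y
  simp

theorem PosDef.pow {φ : H → ℂ} (h : PosDef φ) (n : ℕ) : PosDef fun s => φ s ^ n := by
  induction n with
  | zero => simpa using PosDef.one (H := H)
  | succ n ih =>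
    simp only [pow_succ]
    exact ih.mul h

theorem PosDef.finsum {ι : Type*} {φ : ι → H → ℂ} (h : ∀ i, PosDef (φ i)) (s : Finset ι) :
    PosDef fun x => ∑ i ∈ s, φ i x := by
  classical
  induction s using Finset.induction_on with
  | empty => simpa using PosDef.zero (H := H)
  | insert a s ha ih =>
    simp only [Finset.sum_insert ha]
    exact (h a).add ih

theorem PosDef.finprod {ι : Type*} {φ : ι → H → ℂ} (h : ∀ i, PosDef (φ i)) (s : Finset ι) :
    PosDef fun x => ∏ i ∈ s, φ i x := by
  classical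
  induction s using Finset.induction_on with
  | empty => simpa using PosDef.one (H := H)
  | insert a s ha ih =>
    simp only [Finset.prod_insert ha]
    exact (h a).mul ih

theorem PosDef.limit {ι : Type*} {l : Filter ι} [l.NeBot] {φ : ι → H → ℂ} {ψ : H → ℂ}
    (h : ∀ i, PosDef (φ i)) (hl : ∀ s, Tendsto (fun i => φ i s) l (𝓝 (ψ s))) : PosDef ψ := by
  refine ⟨?_, fun c => ?_⟩
  · ext x y
    rw [Matrix.conjTranspose_apply, Matrix.of_apply, Matrix.of_apply]
    have h1 : Tendsto (fun i => star (φ i (y⁻¹ * x))) l (𝓝 (star (ψ (y⁻¹ * x)))) :=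
      (continuous_star.tendsto _).comp (hl _)
    refine tendsto_nhds_unique h1 ?_
    have h2 : ∀ i, star (φ i (y⁻¹ * x)) = φ i (x⁻¹ * y) := by
      intro i
      have := congrFun (congrFun (h i).1 x) y
      rwa [Matrix.conjTranspose_apply, Matrix.of_apply, Matrix.of_apply] at this
    simp only [h2]
    exact hl _
  · have h1 : Tendsto (fun k => c.sum fun i xi ↦ c.sum fun j xj ↦
        star xi * (Matrix.of fun x y : H => φ k (x⁻¹ * y)) i j * xj) l
        (𝓝 (c.sum fun i xi ↦ c.sum fun j xj ↦
          star xi * (Matrix.of fun x y : H => ψ (x⁻¹ * y)) i j * xj)) := by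
      simp only [Finsupp.sum, Matrix.of_apply]
      refine tendsto_finsetSum _ fun i _ => tendsto_finsetSum _ fun j _ => ?_
      exact ((hl _).const_mul _).mul_const _
    exact ge_of_tendsto' h1 fun k => (h k).2 c

theorem PosDef.hasSum {ι : Type*} {φ : ι → H → ℂ} {ψ : H → ℂ}
    (h : ∀ i, PosDef (φ i)) (hl : ∀ s, HasSum (fun i => φ i s) (ψ s)) : PosDef ψ :=
  PosDef.limit (fun s : Finset ι => PosDef.finsum h s) hl

theorem PosDef.nonneg {φ : H → ℂ} (h : PosDef φ) : 0 ≤ φ 1 := by
  have := Matrix.PosSemidef.diag_nonneg h (i := 1)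
  simpa using this

theorem PosDef.conj {φ : H → ℂ} (h : PosDef φ) (s : H) : conj (φ s) = φ s⁻¹ := by
  have := congrFun (congrFun h.1 s) 1
  rw [Matrix.conjTranspose_apply, Matrix.of_apply, Matrix.of_apply] at this
  simpa using this

end alg

section rep

variable {H : Type*} [Group H] [TopologicalSpace H] [IsTopologicalGroup H] [LocallyCompactSpace H]
  [SecondCountableTopology H] [T2Space H] [MeasurableSpace H] [BorelSpace H]

variable {m : Measure H} [m.IsHaarMeasure]

theorem PosDef.coef (ξ : Lp ℂ 2 m) : PosDef fun s => ⟪ξ, lam m s ξ⟫_ℂ := by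
  have h := gram_posSemidef (X := H) fun s => lam m s ξ
  unfold PosDef
  convert! h using 1
  ext x y
  rw [Matrix.of_apply, Matrix.of_apply, lam_inner', ← lam_mul]

end rep

/-! ### GNS -/

section gns

universe u

variable {H : Type u} [Group H] [TopologicalSpace H] [IsTopologicalGroup H]
  [SecondCountableTopology H]

theorem orthonormal_countable {E ι : Type*} [NormedAddCommGroup E] [InnerProductSpace ℂ E]
    [TopologicalSpace.SeparableSpace E] {v : ι → E} (hv : Orthonormal ℂ v) : Countable ι := by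
  have h1 : ∀ i j, i ≠ j → √2 ≤ dist (v i) (v j) := by
    intro i j hij
    rw [dist_eq_norm]
    apply Real.sqrt_le_iff.2
    refine ⟨norm_nonneg _, ?_⟩
    rw [@norm_sub_sq ℂ, hv.1 i, hv.1 j, hv.2 hij]
    norm_num
  have h2 : (univ : Set ι).Countable := by
    refine PairwiseDisjoint.countable_of_isOpen (s := fun i => Metric.ball (v i) (1 / 2)) ?_
      (fun i _ => Metric.isOpen_ball) (fun i _ => ⟨v i, Metric.mem_ball_self (by norm_num)⟩)
    intro i _ j _ hij
    apply Metric.ball_disjoint_ball
    refine le_trans ?_ (h1 i j hij)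
    rw [Real.le_sqrt' (by norm_num)]
    norm_num
  exact countable_univ_iff.1 h2

theorem gns0 {B : H → ℂ} (hB : PosDef B) (hc : Continuous B) :
    ∃ (ι : Type u) (_ : Countable ι) (c : ι → H → ℂ), (∀ i, Continuous (c i)) ∧
      ∀ x y, HasSum (fun i => conj (c i x) * c i y) (B (x⁻¹ * y)) := by
  classical
  set K : Matrix H H (ℂ →L[ℂ] ℂ) := Matrix.of fun x y => B (x⁻¹ * y) • (1 : ℂ →L[ℂ] ℂ) with hK
  have hKa : ∀ x y z, K x y z = B (x⁻¹ * y) * z := fun x y z => rfl
  have hKp : K.PosSemidef := by
    have key : K.PosSemidef ↔ K.IsHermitian ∧ ∀ vv : H →₀ ℂ,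
        0 ≤ RCLike.re (vv.sum fun x w ↦ vv.sum fun x' w' ↦ ⟪K x' x w, w'⟫_ℂ) :=
      RKHS.posSemidef_tfae.out 0 2
    rw [key]
    refine ⟨?_, ?_⟩
    · ext x y
      rw [Matrix.conjTranspose_apply]
      have h1 : star (K y x) = conj (B (y⁻¹ * x)) • (1 : ℂ →L[ℂ] ℂ) := by
        show star (B (y⁻¹ * x) • (1 : ℂ →L[ℂ] ℂ)) = _
        rw [star_smul, star_one]
        rfl
      rw [h1, hB.conj, mul_inv_rev, inv_inv]
      rfl
    · intro vv
      have h1 := hB.2 vv
      have h2 : (vv.sum fun x w ↦ vv.sum fun x' w' ↦ ⟪K x' x w, w'⟫_ℂ) =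
          vv.sum fun i xi ↦ vv.sum fun j xj ↦
            star xi * (Matrix.of fun x y : H => B (x⁻¹ * y)) i j * xj := by
        simp only [Finsupp.sum]
        apply Finset.sum_congr rfl
        intro i _
        apply Finset.sum_congr rfl
        intro j _
        rw [hKa, Matrix.of_apply, RCLike.inner_apply, map_mul, hB.conj, mul_inv_rev, inv_inv,
          RCLike.star_def]
        ring
      rw [h2]
      exact (Complex.le_def.1 h1).1
  have : Fact K.PosSemidef := ⟨hKp⟩
  let E := RKHS.OfKernel K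
  let v : H → E := fun x => RKHS.kerFun E x (1 : ℂ)
  have hv : ∀ x y, ⟪v x, v y⟫_ℂ = B (x⁻¹ * y) := by
    intro x y
    show ⟪RKHS.kerFun E x (1 : ℂ), RKHS.kerFun E y (1 : ℂ)⟫_ℂ = _
    rw [← RKHS.kernel_inner, RKHS.OfKernel.kernel_ofKernel, hKa, mul_one, RCLike.inner_apply,
      hB.conj, mul_inv_rev, inv_inv, one_mul]
  have hvc : Continuous v := by
    rw [continuous_iff_continuousAt]
    intro x
    rw [ContinuousAt, tendsto_iff_norm_sub_tendsto_zero]
    have h1 : ∀ y, ‖v y - v x‖ ^ 2 = 2 * (B 1).re - 2 * (B (y⁻¹ * x)).re := by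
      intro y
      rw [@norm_sub_sq ℂ, hv, ← @inner_self_eq_norm_sq ℂ, ← @inner_self_eq_norm_sq ℂ, hv, hv,
        inv_mul_cancel, inv_mul_cancel]
      show (B 1).re - 2 * (B (y⁻¹ * x)).re + (B 1).re = _
      ring
    have h2 : Tendsto (fun y => ‖v y - v x‖ ^ 2) (𝓝 x) (𝓝 0) := by
      simp only [h1]
      have h3 : Continuous fun y : H => 2 * (B 1).re - 2 * (B (y⁻¹ * x)).re := by
        have := Complex.continuous_re.comp (hc.comp (continuous_inv.mul (continuous_const (y := x))))
        exact continuous_const.sub (continuous_const.mul this)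
      have h4 := h3.tendsto x
      rwa [inv_mul_cancel, sub_self] at h4
    have h3 : Tendsto (fun y => √(‖v y - v x‖ ^ 2)) (𝓝 x) (𝓝 √0) :=
      (Real.continuous_sqrt.tendsto _).comp h2
    rw [Real.sqrt_zero] at h3
    refine h3.congr fun y => ?_
    exact Real.sqrt_sq (norm_nonneg _)
  have hsep : TopologicalSpace.SeparableSpace E := by
    rw [← TopologicalSpace.isSeparable_univ_iff]
    have h1 : TopologicalSpace.IsSeparable (range v) := TopologicalSpace.isSeparable_range hvc
    have h2 := (h1.span (R := ℂ)).closure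
    have h3 := RKHS.kerFun_dense (𝕜 := ℂ) (X := H) (V := ℂ) E
    have h4 : Submodule.span ℂ {x | ∃ (y : H) (c : ℂ), RKHS.kerFun E y c = x} =
        Submodule.span ℂ (range v) := by
      apply le_antisymm
      · rw [Submodule.span_le]
        rintro _ ⟨y, c, rfl⟩
        have : RKHS.kerFun E y c = c • v y := by
          show _ = c • RKHS.kerFun E y (1 : ℂ)
          rw [← map_smul, smul_eq_mul, mul_one]
        rw [this]
        exact Submodule.smul_mem _ _ (Submodule.subset_span ⟨y, rfl⟩)
      · apply Submodule.span_mono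
        rintro _ ⟨y, rfl⟩
        exact ⟨y, 1, rfl⟩
    rw [h4] at h3
    have h5 : closure ((Submodule.span ℂ (range v) : Submodule ℂ E) : Set E) = univ := by
      rw [← Submodule.topologicalClosure_coe, h3]
      rfl
    rwa [h5] at h2
  obtain ⟨w, b, hb⟩ := exists_hilbertBasis ℂ E
  refine ⟨w, orthonormal_countable b.orthonormal, fun i x => ⟪b i, v x⟫_ℂ, ?_, ?_⟩
  · intro i
    exact (innerSL ℂ (b i)).continuous.comp hvc
  · intro x y
    have h1 := b.hasSum_inner_mul_inner (v x) (v y)
    rw [hv] at h1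
    have h2 : (fun i => conj ⟪b i, v x⟫_ℂ * ⟪b i, v y⟫_ℂ) = fun i => ⟪v x, b i⟫_ℂ * ⟪b i, v y⟫_ℂ := by
      funext i
      rw [inner_conj_symm]
    rw [h2]
    exact h1

theorem gns {B : H → ℂ} (hB : PosDef B) (hc : Continuous B) :
    ∃ (c : ℕ → H → ℂ), (∀ i, Continuous (c i)) ∧
      ∀ x y, HasSum (fun i => conj (c i x) * c i y) (B (x⁻¹ * y)) := by
  classical
  obtain ⟨ι, hι, c, h1, h2⟩ := gns0 hB hc
  obtain ⟨f, hf⟩ := exists_injective_nat ι
  have hex : ∀ n, (∃ i, f i = n) ∨ Function.extend f c (fun _ _ => 0) n = fun _ => 0 := by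
    intro n
    by_cases h : ∃ i, f i = n
    · exact Or.inl h
    · exact Or.inr (Function.extend_apply' _ _ _ h)
  refine ⟨Function.extend f c (fun _ _ => 0), ?_, ?_⟩
  · intro n
    rcases hex n with ⟨i, rfl⟩ | h
    · rw [hf.extend_apply]
      exact h1 _
    · rw [h]
      exact continuous_const
  · intro x y
    rw [← hf.hasSum_iff]
    · have h3 : ((fun i => conj (Function.extend f c (fun _ _ => 0) i x) *
          Function.extend f c (fun _ _ => 0) i y) ∘ f) = fun i => conj (c i x) * c i y := by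
        funext i
        simp only [Function.comp_apply, hf.extend_apply]
      rw [h3]
      exact h2 x y
    · intro n hn
      rcases hex n with ⟨i, rfl⟩ | h
      · exact absurd ⟨i, rfl⟩ hn
      · rw [h, mul_zero]

end gns

end Pool.Agent.J6H12.SG
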