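import Pool.Agent.J6H12.SG.Sym

/-!
# The symmetric semigroup of absolutely continuous measures
-/

set_option autoImplicit false
set_option linter.unusedSectionVars false

open Set Filter Topology MeasureTheory BoundedContinuousFunction NormedSpace
open scoped ZeroAtInfty

namespace Pool.Agent.J6H12.SG

open Pool.Agent.X196.CS

variable {H : Type*} [Group H] [TopologicalSpace H] [IsTopologicalGroup H] [LocallyCompactSpace H]
  [SecondCountableTopology H] [T2Space H] [MeasurableSpace H] [BorelSpace H]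

variable (m : Measure H) [m.IsHaarMeasure]

/-- The semigroup, with the approximating compound Poisson semigroups. (Adapted from
`Pool.Agent.X196.CS.exists_semigroup`, with symmetric jump measures equivalent to `m`.) -/
theorem exists_semigroup' : ∃ μ : ℝ → Measure H, (∀ t, IsProbabilityMeasure (μ t)) ∧
    μ 0 = Measure.dirac 1 ∧ (∀ s t, 0 ≤ s → 0 ≤ t → μ (s + t) = μ s ∗ₘ μ t) ∧
    (∀ f : H → ℝ, Continuous f → Tendsto f (cocompact H) (𝓝 0) →
      Tendsto (fun t => ∫ x, f x ∂(μ t)) (𝓝[>] 0) (𝓝 (f 1))) ∧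
    (∀ t, 0 < t → μ t ≪ m) ∧ ∃ r : ℕ → Alg H, (∀ k, r k ∈ PS m) ∧
    ∀ t : ℝ, 0 < t → ∃ (ν : Measure H) (_ : IsFiniteMeasure ν), ν = μ t ∧
      Tendsto (fun N : ℕ => xx (∑ k ∈ Finset.range N, r k) N t) atTop (𝓝 (TA ν)) := by
  classical
  obtain ⟨V, hV⟩ := (𝓝 (1 : H)).exists_antitone_basis
  have hVn : ∀ n, V n ∈ 𝓝 (1 : H) := fun n => hV.1.mem_of_mem trivial
  choose κ hκp hκac hκV using fun n => exists_near m (hVn n)
  obtain ⟨r, x, hr, hx, hq⟩ := abs_main (CC m) (PS m) (PS_CC m) (CC_add m) (CC_zero m)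
    (by
      rintro p ⟨μ, _, _, _, _, rfl⟩
      exact TT_norm_le_one μ) (PS_abs m) (fun M => TA (κ M)) (fun M => ⟨κ M, inferInstance, hκac M, rfl⟩)
  -- the sums of jumps
  have hR : ∀ N : ℕ, ∑ k ∈ Finset.range N, r k ∈ CC m := by
    intro N
    induction N with
    | zero => exact CC_zero m
    | succ N ih =>
      rw [Finset.sum_range_succ]
      exact CC_add m _ ih _ (PS_CC m (hr N))
  have hR1 : ∀ N : ℕ, app (∑ k ∈ Finset.range N, r k) (const H 1) = (N : ℝ) • const H 1 := by
    intro N
    induction N with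
    | zero => simp [app_zero]
    | succ N ih =>
      obtain ⟨μ, _, _, _, _, h⟩ := hr N
      have h1 : app (r N) (const H 1) = const H 1 := by
        rw [h]
        exact TT_one μ
      rw [Finset.sum_range_succ, app_add, ih, h1]
      push_cast
      rw [add_smul, one_smul]
  have hRn : ∀ N : ℕ, ‖∑ k ∈ Finset.range N, r k‖ ≤ N := by
    intro N
    refine (norm_sum_le _ _).trans ?_
    have h1 : ∀ k ∈ Finset.range N, ‖r k‖ ≤ 1 := by
      intro k _
      obtain ⟨μ, _, _, _, _, h⟩ := hr k
      rw [h]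
      exact TT_norm_le_one μ
    refine (Finset.sum_le_sum h1).trans ?_
    simp
  -- the limits are in the cone
  have hxC : ∀ t : ℝ, 0 < t → x t ∈ CC m := by
    intro t ht
    have h1 : Tendsto (fun N : ℕ => xx (∑ k ∈ Finset.range N, r k) N t -
        Real.exp (-(t * N)) • (1 : Alg H)) atTop (𝓝 (x t - (0 : ℝ) • (1 : Alg H))) := by
      apply (hx t ht).sub
      apply Tendsto.smul_const
      have h2 : Tendsto (fun N : ℕ => t * (N : ℝ)) atTop atTop :=
        tendsto_natCast_atTop_atTop.const_mul_atTop ht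
      exact Real.tendsto_exp_neg_atTop_nhds_zero.comp h2
    rw [zero_smul, sub_zero] at h1
    refine CC_closed m _ (fun N => ?_) _ h1
    rw [xx_eq, ← smul_sub]
    exact CC_smul m (Real.exp_pos _).le _ (exp_mem m (hR N) ht.le)
  have hx1 : ∀ t : ℝ, 0 < t → app (x t) (const H 1) = const H 1 := by
    intro t ht
    have h1 := app_tendsto (hx t ht) (const H (1 : ℝ))
    have h2 : (fun N : ℕ => app (xx (∑ k ∈ Finset.range N, r k) N t) (const H (1 : ℝ))) =
        fun _ => const H (1 : ℝ) := by
      funext N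
      apply exp_apply_of_zero
      rw [app_smul, app_sub, app_smul, hR1, app_one, sub_self, smul_zero]
    rw [h2] at h1
    exact tendsto_nhds_unique h1 tendsto_const_nhds
  choose! μ hμfin hμac hμT using hxC
  have hμp : ∀ t : ℝ, 0 < t → IsProbabilityMeasure (μ t) := by
    intro t ht
    have := hμfin t ht
    have h1 := hx1 t ht
    rw [hμT t ht] at h1
    have h2 : app (TA (μ t)) (const H 1) 1 = const H (1 : ℝ) 1 := by rw [h1]
    rw [TA_apply] at h2
    simp only [const_apply, integral_const, smul_eq_mul, mul_one] at h2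
    refine ⟨?_⟩
    rw [measureReal_def] at h2
    rw [← ENNReal.ofReal_toReal (measure_ne_top (μ t) univ), h2, ENNReal.ofReal_one]
  -- the semigroup
  let ν : ℝ → Measure H := fun t => if 0 < t then μ t else Measure.dirac 1
  have hνp : ∀ t, IsProbabilityMeasure (ν t) := by
    intro t
    by_cases ht : 0 < t
    · have := hμp t ht
      simp only [ν, if_pos ht]
      exact this
    · simp only [ν, if_neg ht]
      infer_instance
  have hν : ∀ t, 0 < t → ν t = μ t := fun t ht => if_pos ht
  have hν0 : ν 0 = Measure.dirac 1 := if_neg (lt_irrefl 0)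
  refine ⟨ν, hνp, hν0, ?_, ?_, ?_, r, hr, ?_⟩
  · intro s t hs ht
    rcases hs.eq_or_lt with rfl | hs
    · rw [zero_add, hν0, Measure.dirac_one_mconv]
    · rcases ht.eq_or_lt with rfl | ht
      · rw [add_zero, hν0, Measure.mconv_dirac_one]
      · have := hμfin s hs
        have := hμfin t ht
        have := hμfin (s + t) (by linarith)
        rw [hν s hs, hν t ht, hν (s + t) (by linarith)]
        apply TT_inj
        rw [TT_mconv]
        have h1 : x (s + t) = x s * x t := by
          refine tendsto_nhds_unique (hx (s + t) (by linarith)) ?_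
          have h2 := (hx s hs).mul (hx t ht)
          refine h2.congr fun N => ?_
          rw [xx_add]
        rw [hμT s hs, hμT t ht, hμT (s + t) (by linarith)] at h1
        exact h1
  · intro f hf hf0
    -- a bounded continuous function
    obtain ⟨C, hC⟩ : ∃ C, ∀ u, ‖f u‖ ≤ C := by
      let f0 : C₀(H, ℝ) := ⟨⟨f, hf⟩, hf0⟩
      exact ⟨‖f0.toBCF‖, fun u => f0.toBCF.norm_coe_le_norm u⟩
    let F : H →ᵇ ℝ := BoundedContinuousFunction.ofNormedAddCommGroup f hf C hC
    rw [Metric.tendsto_nhds]
    intro η hη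
    have h1 := unif hf hf0 (show 0 < η / 4 by positivity)
    obtain ⟨M, hM⟩ := hV.1.mem_iff.1 h1
    have hM' : V M ⊆ {v | ∀ s : H, |f (s * v) - f s| ≤ η / 4} := hM.2
    have hκF : ‖app (TA (κ M)) F - F‖ ≤ η / 4 := by
      rw [norm_le (by positivity)]
      intro s
      show ‖∫ v, f (s * v) ∂(κ M) - f s‖ ≤ _
      have h2 : ∫ v, f (s * v) ∂(κ M) - f s = ∫ v, (f (s * v) - f s) ∂(κ M) := by
        have h3 : Integrable (fun v => f (s * v)) (κ M) := int_tr (κ M) F s
        rw [integral_sub h3 (integrable_const _)]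
        simp
      rw [h2, Real.norm_eq_abs]
      exact int_conc (hκV M) fun v hv => hM' hv s
    have h3 := app_tendsto (hq M) F
    rw [Metric.tendsto_nhds] at h3
    filter_upwards [h3 (η / 4) (by positivity), self_mem_nhdsWithin] with t h4 ht
    have ht' : 0 < t := ht
    have hxn : ‖x t‖ ≤ 1 :=
      le_of_tendsto (hx t ht').norm (Eventually.of_forall fun N => xx_norm_le (hRn N) ht'.le)
    rw [dist_eq_norm] at h4
    have := hμfin t ht'
    have h5 : ∫ x, f x ∂(ν t) = app (x t) F 1 := by
      rw [hν t ht', hμT t ht', TA_apply]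
      simp only [one_mul]
      rfl
    rw [h5, Real.dist_eq]
    have h6 : |app (x t) F 1 - app (x t) (app (TA (κ M)) F) 1| ≤ η / 4 := by
      rw [← Real.norm_eq_abs]
      calc ‖app (x t) F 1 - app (x t) (app (TA (κ M)) F) 1‖ ≤
          ‖app (x t) F - app (x t) (app (TA (κ M)) F)‖ :=
            (app (x t) F - app (x t) (app (TA (κ M)) F)).norm_coe_le_norm 1
        _ = ‖app (x t) (F - app (TA (κ M)) F)‖ := by rw [app_vsub]
        _ ≤ ‖x t‖ * ‖F - app (TA (κ M)) F‖ := app_norm _ _
        _ ≤ 1 * (η / 4) := by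
          gcongr
          rw [norm_sub_rev]
          exact hκF
        _ = η / 4 := one_mul _
    have h7 : |app (x t) (app (TA (κ M)) F) 1 - app (TA (κ M)) F 1| < η / 4 := by
      rw [← Real.norm_eq_abs]
      rw [app_mul] at h4
      exact lt_of_le_of_lt ((app (x t) (app (TA (κ M)) F) - app (TA (κ M)) F).norm_coe_le_norm 1) h4
    have h8 : |app (TA (κ M)) F 1 - f 1| ≤ η / 4 := by
      rw [← Real.norm_eq_abs]
      exact ((app (TA (κ M)) F - F).norm_coe_le_norm 1).trans hκF
    have h9 := abs_sub_le (app (x t) F 1) (app (x t) (app (TA (κ M)) F) 1) (f 1)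
    have h10 := abs_sub_le (app (x t) (app (TA (κ M)) F) 1) (app (TA (κ M)) F 1) (f 1)
    linarith
  · intro t ht
    rw [hν t ht]
    exact hμac t ht
  · intro t ht
    have := hμfin t ht
    refine ⟨μ t, hμfin t ht, (hν t ht).symm, ?_⟩
    have h1 := hx t ht
    rw [hμT t ht] at h1
    exact h1

end Pool.Agent.J6H12.SG
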