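import Pool.Agent.J6H12.SG.Lam
import Pool.Agent.X196.CS.Semi

/-!
# A symmetric absolutely continuous semigroup
-/

set_option autoImplicit false
set_option linter.unusedSectionVars false

open Set Filter Topology MeasureTheory BoundedContinuousFunction NormedSpace
open scoped NNReal

namespace Pool.Agent.J6H12.SG

open Pool.Agent.X196.CS

variable {H : Type*} [Group H] [TopologicalSpace H] [IsTopologicalGroup H] [LocallyCompactSpace H]
  [SecondCountableTopology H] [T2Space H] [MeasurableSpace H] [BorelSpace H]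

/-- symmetrization -/
noncomputable def sy (μ : Measure H) : Measure H := (2⁻¹ : ℝ≥0) • (μ + μ.map Inv.inv)

theorem half_sum : (2⁻¹ : ℝ≥0) • ((1 : ENNReal) + 1) = 1 := by
  rw [ENNReal.smul_def, smul_eq_mul, one_add_one_eq_two, ENNReal.coe_inv (by norm_num)]
  exact ENNReal.inv_mul_cancel (by norm_num) (by norm_num)

instance sy_prob (μ : Measure H) [IsProbabilityMeasure μ] : IsProbabilityMeasure (sy μ) := by
  refine ⟨?_⟩
  show ((2⁻¹ : ℝ≥0) • (μ + μ.map Inv.inv)) univ = 1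
  rw [Measure.smul_apply, Measure.add_apply, Measure.map_apply measurable_inv MeasurableSet.univ,
    preimage_univ, measure_univ]
  exact half_sum

theorem map_inv_inv (μ : Measure H) : (μ.map Inv.inv).map Inv.inv = μ := by
  rw [Measure.map_map measurable_inv measurable_inv]
  have : (Inv.inv ∘ Inv.inv : H → H) = id := by
    funext x
    exact inv_inv x
  rw [this, Measure.map_id]

theorem sy_sym (μ : Measure H) : (sy μ).map Inv.inv = sy μ := by
  unfold sy
  rw [Measure.map_smul, Measure.map_add _ _ measurable_inv, map_inv_inv, add_comm]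

variable (m : Measure H) [m.IsHaarMeasure]

theorem sy_ac {μ : Measure H} (hμ : μ ≪ m) : sy μ ≪ m :=
  (Measure.AbsolutelyContinuous.add_left hμ (inv_ac m hμ)).smul_left _

theorem ac_sy {μ : Measure H} (hμ : m ≪ μ) : m ≪ sy μ := by
  refine Measure.AbsolutelyContinuous.mk fun s _ hs => ?_
  apply hμ
  have h1 : (2⁻¹ : ℝ≥0) • (μ s + μ.map Inv.inv s) = 0 := hs
  rw [ENNReal.smul_def, smul_eq_mul, mul_eq_zero] at h1
  rcases h1 with h1 | h1
  · exfalso
    rw [ENNReal.coe_eq_zero] at h1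
    norm_num at h1
  · exact (add_eq_zero.mp h1).1

theorem sy_conc {μ : Measure H} {V : Set H} (hV : μ (V ∩ V⁻¹)ᶜ = 0) : sy μ Vᶜ = 0 := by
  show (2⁻¹ : ℝ≥0) • (μ Vᶜ + μ.map Inv.inv Vᶜ) = 0
  have h1 : μ Vᶜ = 0 := measure_mono_null (compl_subset_compl.2 inter_subset_left) hV
  have h2 : μ.map Inv.inv Vᶜ = 0 := by
    have h3 : μ.map Inv.inv Vᶜ = μ (Inv.inv ⁻¹' Vᶜ) := by
      have he : (fun x : H => x⁻¹) = (MeasurableEquiv.inv H) := rfl
      have := (MeasurableEquiv.inv H).map_apply (μ := μ) Vᶜ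
      exact this
    rw [h3]
    refine measure_mono_null ?_ hV
    intro x hx hx2
    exact hx hx2.2
  rw [h1, h2, add_zero, smul_zero]

/-- a probability measure equivalent to the Haar measure -/
theorem exists_equiv : ∃ σ : Measure H, IsProbabilityMeasure σ ∧ σ ≪ m ∧ m ≪ σ :=
  ⟨m.toFinite, inferInstance, toFinite_absolutelyContinuous m, absolutelyContinuous_toFinite m⟩

/-- mixture -/
noncomputable def mix (δ : ℝ≥0) (μ ν : Measure H) : Measure H := (1 - δ) • μ + δ • ν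

theorem mix_prob {δ : ℝ≥0} (hδ : δ ≤ 1) (μ ν : Measure H) [IsProbabilityMeasure μ]
    [IsProbabilityMeasure ν] : IsProbabilityMeasure (mix δ μ ν) := by
  refine ⟨?_⟩
  show (1 - δ) • μ univ + δ • ν univ = 1
  rw [measure_univ, measure_univ, ← add_smul, tsub_add_cancel_of_le hδ, one_smul]

/-- the operators of symmetric probability measures equivalent to the Haar measure -/
def PS : Set (Alg H) :=
  {A | ∃ (μ : Measure H) (_ : IsProbabilityMeasure μ), μ ≪ m ∧ m ≪ μ ∧ μ.map Inv.inv = μ ∧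
    A = TA μ}

theorem PS_CC : PS m ⊆ CC m := by
  rintro A ⟨μ, _, h1, _, _, h2⟩
  exact ⟨μ, inferInstance, h1, h2⟩

theorem PS_abs (Q : Finset (Alg H)) (hQ : ∀ q ∈ Q, q ∈ CC m) (ε : ℝ) (hε : 0 < ε) :
    ∃ p ∈ PS m, ∀ q ∈ Q, ‖p * q - q‖ ≤ ε ∧ ‖q * p - q‖ ≤ ε := by
  classical
  have h1 : ∀ᶠ W in (𝓝 (1 : H)).smallSets, ∀ q ∈ Q, ∀ (ρ : Measure H) [IsProbabilityMeasure ρ],
      ρ Wᶜ = 0 → ‖TA ρ * q - q‖ ≤ ε / 2 ∧ ‖q * TA ρ - q‖ ≤ ε / 2 := by
    rw [Filter.eventually_all_finset]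
    intro q hq
    obtain ⟨μ, _, hμ, rfl⟩ := hQ q hq
    exact absorb m hμ (by positivity)
  obtain ⟨W, hW, h2⟩ := (eventually_smallSets.1 h1)
  have hWW : W ∩ W⁻¹ ∈ 𝓝 (1 : H) := by
    refine inter_mem hW ?_
    have := (continuous_inv (G := H)).tendsto 1
    rw [inv_one] at this
    exact this hW
  obtain ⟨ρ, hρp, hρac, hρW⟩ := exists_near m hWW
  obtain ⟨σ, hσp, hσ1, hσ2⟩ := exists_equiv m
  obtain ⟨K, hK⟩ : ∃ K : ℝ, K = ∑ q ∈ Q, ‖q‖ + 1 := ⟨_, rfl⟩
  have hK0 : 0 < K := by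
    rw [hK]
    have : 0 ≤ ∑ q ∈ Q, ‖q‖ := Finset.sum_nonneg fun _ _ => norm_nonneg _
    linarith
  have hKq : ∀ q ∈ Q, ‖q‖ ≤ K := by
    intro q hq
    have := Finset.single_le_sum (f := fun q : Alg H => ‖q‖) (fun _ _ => norm_nonneg _) hq
    rw [hK]
    linarith
  obtain ⟨d, hd⟩ : ∃ d : ℝ, d = min 1 (ε / (4 * K)) := ⟨_, rfl⟩
  have hd0 : 0 < d := by rw [hd]; positivity
  have hd1 : d ≤ 1 := by rw [hd]; exact min_le_left _ _
  have hd2 : d * (4 * K) ≤ ε := by
    have : d ≤ ε / (4 * K) := by rw [hd]; exact min_le_right _ _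
    rwa [le_div_iff₀ (by positivity)] at this
  set δ : ℝ≥0 := d.toNNReal with hδ
  have hδ1 : δ ≤ 1 := by
    rw [hδ, Real.toNNReal_le_one]
    exact hd1
  have hδc : (δ : ℝ) = d := Real.coe_toNNReal d hd0.le
  have hδ0 : δ ≠ 0 := by
    intro h
    rw [h] at hδc
    simp only [NNReal.coe_zero] at hδc
    linarith
  have hmp := mix_prob hδ1 (sy ρ) (sy σ)
  refine ⟨TA (mix δ (sy ρ) (sy σ)), ⟨mix δ (sy ρ) (sy σ), hmp, ?_, ?_, ?_, rfl⟩, ?_⟩
  · exact Measure.AbsolutelyContinuous.add_left ((sy_ac m hρac).smul_left _)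
      ((sy_ac m hσ1).smul_left _)
  · refine Measure.AbsolutelyContinuous.mk fun s _ hs => ?_
    apply ac_sy m hσ2
    have h3 : (1 - δ) • (sy ρ) s + δ • (sy σ) s = 0 := hs
    have h4 := (add_eq_zero.mp h3).2
    rw [ENNReal.smul_def, smul_eq_mul, mul_eq_zero] at h4
    rcases h4 with h4 | h4
    · exact absurd (ENNReal.coe_eq_zero.mp h4) hδ0
    · exact h4
  · unfold mix
    rw [Measure.map_add _ _ measurable_inv, Measure.map_smul, Measure.map_smul,
      sy_sym, sy_sym]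
  · intro q hq
    have hTA : TA (mix δ (sy ρ) (sy σ)) = (1 - d) • TA (sy ρ) + d • TA (sy σ) := by
      have e1 : TA ((1 - δ) • sy ρ + δ • sy σ) = TA ((1 - δ) • sy ρ) + TA (δ • sy σ) := TT_add _ _
      have e2 : TA ((1 - δ) • sy ρ) = ((1 - δ : ℝ≥0) : ℝ) • TA (sy ρ) := TT_smul _ _
      have e3 : TA (δ • sy σ) = (δ : ℝ) • TA (sy σ) := TT_smul _ _
      show TA ((1 - δ) • sy ρ + δ • sy σ) = _
      rw [e1, e2, e3, NNReal.coe_sub hδ1, NNReal.coe_one, hδc]
    have hs : ‖TA (sy σ)‖ ≤ 1 := TT_norm_le_one _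
    obtain ⟨h3, h4⟩ := h2 W subset_rfl q hq (sy ρ) (sy_conc hρW)
    have hq' := hKq q hq
    have gen : ∀ X : Alg H, ∀ Y : Alg H, ‖X‖ ≤ ε / 2 → ‖Y‖ ≤ 2 * K →
        ‖(1 - d) • X + d • Y‖ ≤ ε := by
      intro X Y hX hY
      calc ‖(1 - d) • X + d • Y‖ ≤ ‖(1 - d) • X‖ + ‖d • Y‖ := norm_add_le _ _
        _ ≤ 1 * (ε / 2) + d * (2 * K) := by
          rw [norm_smul, norm_smul, Real.norm_eq_abs, Real.norm_eq_abs, abs_of_pos hd0,
            abs_of_nonneg (by linarith)]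
          have : 1 - d ≤ 1 := by linarith
          gcongr
        _ ≤ ε := by nlinarith
    constructor
    · have e : TA (mix δ (sy ρ) (sy σ)) * q - q =
          (1 - d) • (TA (sy ρ) * q - q) + d • (TA (sy σ) * q - q) := by
        rw [hTA, add_mul, smul_mul_assoc, smul_mul_assoc]
        module
      rw [e]
      apply gen _ _ h3
      calc ‖TA (sy σ) * q - q‖ ≤ ‖TA (sy σ)‖ * ‖q‖ + ‖q‖ :=
            (norm_sub_le _ _).trans (by gcongr; exact norm_mul_le _ _)
        _ ≤ 1 * K + K := by gcongr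
        _ = 2 * K := by ring
    · have e : q * TA (mix δ (sy ρ) (sy σ)) - q =
          (1 - d) • (q * TA (sy ρ) - q) + d • (q * TA (sy σ) - q) := by
        rw [hTA, mul_add, mul_smul_comm, mul_smul_comm]
        module
      rw [e]
      apply gen _ _ h4
      calc ‖q * TA (sy σ) - q‖ ≤ ‖q‖ * ‖TA (sy σ)‖ + ‖q‖ :=
            (norm_sub_le _ _).trans (by gcongr; exact norm_mul_le _ _)
        _ ≤ K * 1 + K := by gcongr
        _ = 2 * K := by ring

end Pool.Agent.J6H12.SG
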